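import Mathlib

/-!
# Rank factorisation
-/

set_option autoImplicit false

namespace Pool.Agent.Lib.MP_64d474_lc.SubExp

theorem exists_factor_of_rank_le {F : Type*} [Field F] {a b r : ℕ}
    (A : Matrix (Fin a) (Fin b) F) (h : A.rank ≤ r) :
    ∃ (U : Matrix (Fin a) (Fin r) F) (V : Matrix (Fin r) (Fin b) F), A = U * V := by
  classical
  have hd : Module.finrank F (LinearMap.range A.mulVecLin) ≤ r := h
  set W := LinearMap.range A.mulVecLin with hW
  set e := Module.finBasis F W with he
  set g' : (Fin r → F) →ₗ[F] W :=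
    (e.equivFun.symm : (Fin (Module.finrank F W) → F) →ₗ[F] W) ∘ₗ
      LinearMap.funLeft F F (Fin.castLE hd) with hg'
  have hs : LinearMap.range g' = ⊤ := by
    rw [LinearMap.range_eq_top]
    rw [hg', LinearMap.coe_comp]
    refine Function.Surjective.comp e.equivFun.symm.surjective ?_
    exact LinearMap.funLeft_surjective_of_injective F F _ (Fin.castLE_injective hd)
  obtain ⟨g, hg⟩ := LinearMap.exists_rightInverse_of_surjective g' hs
  refine ⟨LinearMap.toMatrix' (W.subtype ∘ₗ g'), LinearMap.toMatrix' (g ∘ₗ A.mulVecLin.rangeRestrict),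
    ?_⟩
  rw [← LinearMap.toMatrix'_comp]
  have h1 : (W.subtype ∘ₗ g') ∘ₗ (g ∘ₗ A.mulVecLin.rangeRestrict) = A.mulVecLin := by
    apply LinearMap.ext
    intro v
    have h2 : g' (g (A.mulVecLin.rangeRestrict v)) = A.mulVecLin.rangeRestrict v := by
      have := LinearMap.congr_fun hg (A.mulVecLin.rangeRestrict v)
      simpa using this
    simp only [LinearMap.comp_apply, h2]
    rfl
  rw [h1, ← Matrix.toLin'_apply', LinearMap.toMatrix'_toLin']

end Pool.Agent.Lib.MP_64d474_lc.SubExp
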