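import Mathlib

/-!
# The explicit test set

For ranks `r 0, ..., r (m-1)` let `a k = r k` if `r k` is at least two and `a k = 0` otherwise, let
`s` be the sum of the `a k` and `R` the least number `R ≥ 1` with `s ≤ R ^ 3`.  The variables with
`r k ≤ 1` take the values of `testSet n m`, the other ones those of `hits a R`.
-/

set_option autoImplicit false

open Finset

namespace Pool.Agent.Lib.MP_64d474_lc.SubExp

variable {m : ℕ}

/-- the sum of the ranks of the earlier variables -/
def off (r : Fin m → ℕ) (k : Fin m) : ℕ := ∑ j ∈ univ.filter (· < k), r j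

theorem off_le (r : Fin m → ℕ) (k : Fin m) : off r k + r k ≤ ∑ j, r j := by
  unfold off
  have h2 := sum_le_sum_of_subset (f := r) (subset_univ (insert k (univ.filter (· < k))))
  rw [sum_insert (by simp)] at h2
  omega

/-- the number of blocks -/
def nblk (s R : ℕ) : ℕ := s / R + 1

/-- the block of the variable `k` -/
def blk (r : Fin m → ℕ) (R : ℕ) (k : Fin m) : Fin (nblk (∑ j, r j) R) :=
  ⟨off r k / R, by
    have := off_le r k
    unfold nblk
    exact Nat.lt_succ_of_le (Nat.div_le_div_right (by omega))⟩

/-- the number of sources -/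
def nsrc (R : ℕ) : ℕ := 4 * R ^ 2 + R

/-- the point with the sources `z`, the block parameters `y` and the free values `w` -/
def point {F : Type*} [Semiring F] (r : Fin m → ℕ) (R : ℕ) (z : Fin (nsrc R) → F)
    (y w : Fin (nblk (∑ j, r j) R) → F) (k : Fin m) : F :=
  if r k ≤ R then ∑ j : Fin (nsrc R), z j * ((2 : F) ^ (off r k % R) * y (blk r R k)) ^ ((j : ℕ) + 1)
  else w (blk r R k)

/-- the parameters: the sources, the block parameters and the free values -/
abbrev Par (s R : ℕ) : Type := Fin (nsrc R) ⊕ (Fin (nblk s R) ⊕ Fin (nblk s R))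

/-- the point with the parameters `v` -/
def pt {A : Type*} [Semiring A] (r : Fin m → ℕ) (R : ℕ) (v : Par (∑ j, r j) R → A) : Fin m → A :=
  point r R (fun j => v (Sum.inl j)) (fun j => v (Sum.inr (Sum.inl j)))
    (fun j => v (Sum.inr (Sum.inr j)))

/-- the bounds of the parameters: `s` for the sources, `nsrc R * s` for the block parameters, `s`
for the free values -/
def bd (s R : ℕ) : Par s R → ℕ :=
  Sum.elim (fun _ => s) (Sum.elim (fun _ => nsrc R * s) (fun _ => s))

/-- the points `pt a R v` for all parameters `v` within the bounds `bd` -/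
def hits (a : Fin m → ℕ) (R : ℕ) : Finset (Fin m → ℕ) :=
  (Fintype.piFinset fun c : Par (∑ j, a j) R => range (bd (∑ j, a j) R c + 1)).image (pt a R)

/-- the ranks that are at least two -/
def wild (r : Fin m → ℕ) (k : Fin m) : ℕ := if 2 ≤ r k then r k else 0

theorem exists_side (s : ℕ) : ∃ R, 1 ≤ R ∧ s ≤ R ^ 3 :=
  ⟨s + 1, Nat.succ_le_succ (Nat.zero_le _), by
    calc s ≤ s + 1 := Nat.le_succ _
      _ = (s + 1) ^ 1 := (pow_one _).symm
      _ ≤ (s + 1) ^ 3 := Nat.pow_le_pow_right (Nat.succ_pos _) (by norm_num)⟩

/-- the least number `R ≥ 1` with `s ≤ R ^ 3` -/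
def side (s : ℕ) : ℕ := Nat.find (exists_side s)

/-- an upper bound for the primes and for the bases that are used -/
def bound (n m : ℕ) : ℕ := 32 * (n + m + 1) ^ 5

/-- the number of bases -/
def levels (n : ℕ) : ℕ := Nat.log 2 n + 2

/-- the `k`-th exponent for the prime `p` and the bases `b`: the number with the digits
`b i ^ k mod p` to the radix `n * bound n m + 1` -/
def weight (n m p : ℕ) (b : Fin (levels n) → ℕ) (k : Fin m) : ℕ :=
  ∑ i, (b i ^ (k : ℕ) % p) * (n * bound n m + 1) ^ (i : ℕ)

/-- the points `(t ^ weight n m p b k)` for the primes `p ≤ bound n m`, the bases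
`b i ≤ bound n m` and the numbers `t ≤ (n * bound n m + 1) ^ levels n` -/
def testSet (n m : ℕ) : Finset (Fin m → ℕ) :=
  (((Finset.range (bound n m + 1)).filter Nat.Prime) ×ˢ
    (Fintype.piFinset fun _ : Fin (levels n) => Finset.range (bound n m + 1)) ×ˢ
      Finset.range ((n * bound n m + 1) ^ levels n + 1)).image
    fun q k => q.2.2 ^ weight n m q.1 q.2.1 k

/-- the test set: the values of the variables with `2 ≤ r k` are those of a point of `hits`, the
values of the others are those of a point of `testSet n m` -/
def points (n : ℕ) (r : Fin m → ℕ) : Finset (Fin m → ℕ) :=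
  (testSet n m ×ˢ hits (wild r) (side (∑ j, wild r j))).image
    fun q k => if 2 ≤ r k then q.2 k else q.1 k

end Pool.Agent.Lib.MP_64d474_lc.SubExp
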