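import Mathlib
import Pool.Agent.Lib.MP_64d474_lc.XnChain
import Pool.Agent.Lib.MP_64d474_lc.XnExamples
import Pool.Agent.Lib.MP_64d474_lc.WnChain
import Pool.Agent.Lib.MP_64d474_lc.YnPoint
import Pool.Agent.Lib.MP_64d474_lc.SubExp.Defs

/-!
# The test set for coefficient matrices of rank at most one
-/

open Matrix MvPolynomial

namespace Pool.Agent.Lib.MP_64d474_lc.SubExp

open Pool.Agent.Lib.MP_64d474_lc

/-- the polynomial `det (B₀ + ∑ x_k B_k)` -/
noncomputable def detPoly {F : Type*} [Field F] {r m : ℕ} (B₀ : Matrix (Fin r) (Fin r) F)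
    (B : Fin m → Matrix (Fin r) (Fin r) F) : MvPolynomial (Fin m) F :=
  (B₀.map C + ∑ k, (X k : MvPolynomial (Fin m) F) • (B k).map C).det

/-- For every vector `w` of natural numbers there are invertible matrices `S, T` and integer
vectors `ρ, σ` with `ρ i + σ j ≤ 0` for the nonzero entries of `S B₀ T` and `ρ i + σ j ≤ w k` for
the nonzero entries of `S B_k T`, such that some monomial `∏ x_k ^ d_k` occurring in
`det (B₀ + ∑ x_k B_k)` has weight `∑ w_k d_k = ∑ ρ i + ∑ σ j`. -/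
def DualExact {F : Type*} [Field F] {r m : ℕ} (B₀ : Matrix (Fin r) (Fin r) F)
    (B : Fin m → Matrix (Fin r) (Fin r) F) : Prop :=
  ∀ w : Fin m → ℕ, ∃ (S T : Matrix (Fin r) (Fin r) F) (ρ σ : Fin r → ℤ),
    S.det ≠ 0 ∧ T.det ≠ 0 ∧
    (∀ i j, (S * B₀ * T) i j ≠ 0 → ρ i + σ j ≤ 0) ∧
    (∀ k i j, (S * B k * T) i j ≠ 0 → ρ i + σ j ≤ w k) ∧
    ∃ d : Fin m →₀ ℕ, coeff d (detPoly B₀ B) ≠ 0 ∧
      ∑ k, (w k : ℤ) * (d k : ℤ) = ∑ i, ρ i + ∑ j, σ j

theorem cert_of_dualExact {F : Type*} [Field F] {r m : ℕ} {B₀ : Matrix (Fin r) (Fin r) F}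
    {B : Fin m → Matrix (Fin r) (Fin r) F} (h : DualExact B₀ B) (w : Fin m → ℤ)
    (hw : ∀ k, 0 ≤ w k) : Cert B₀ B w := by
  obtain ⟨S, T, ρ, σ, hS, hT, h0, h1, d, hd, he⟩ := h fun k => (w k).toNat
  have hcast : ∀ k, (((w k).toNat : ℕ) : ℤ) = w k := fun k => Int.toNat_of_nonneg (hw k)
  refine ⟨S, T, fun i => -ρ i, fun j => -σ j, hS, hT, ⟨?_, ?_⟩, d, hd, ?_⟩
  · intro i j hne
    have := h0 i j hne
    show 0 ≤ 0 + -ρ i + -σ j
    linarith
  · intro k i j hne
    have := h1 k i j hne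
    rw [hcast] at this
    show 0 ≤ w k + -ρ i + -σ j
    linarith
  · simp only [hcast] at he
    rw [wt, he, Finset.sum_neg_distrib, Finset.sum_neg_distrib]
    ring

theorem dualExact_of_cert {F : Type*} [Field F] {r m : ℕ} {B₀ : Matrix (Fin r) (Fin r) F}
    {B : Fin m → Matrix (Fin r) (Fin r) F} (h : ∀ w : Fin m → ℤ, Cert B₀ B w) :
    DualExact B₀ B := by
  intro w
  obtain ⟨S, T, ρ, σ, hS, hT, hF, d, hd, he⟩ := h fun k => w k
  refine ⟨S, T, fun i => -ρ i, fun j => -σ j, hS, hT, ?_, ?_, d, hd, ?_⟩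
  · intro i j hne
    have := hF.1 i j hne
    linarith
  · intro k i j hne
    have := hF.2 k i j hne
    linarith
  · rw [wt] at he
    rw [Finset.sum_neg_distrib, Finset.sum_neg_distrib]
    linarith

/-- An arbitrary matrix `B₀` and matrices `B_k = u_k v_kᵀ` of rank at most one form a `DualExact`
tuple as soon as `det (B₀ + ∑ x_k B_k) ≠ 0`. -/
theorem dualExact_of_rankOne {F : Type*} [Field F] [CharZero F] {r m : ℕ}
    (B₀ : Matrix (Fin r) (Fin r) F) (u v : Fin m → Fin r → F)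
    (h : detPoly B₀ (fun k => vecMulVec (u k) (v k)) ≠ 0) :
    DualExact B₀ fun k => vecMulVec (u k) (v k) :=
  dualExact_of_cert fun w => cert_of_rank_one B₀ u v h w

theorem bound_lt (n m : ℕ) : bound n m + 1 ≤ 33 * (n + m + 1) ^ 6 ∧
    n * bound n m + 1 < 33 * (n + m + 1) ^ 6 := by
  rw [bound]
  set M := n + m + 1 with hM
  have hM1 : 1 ≤ M := by omega
  have h5 : 1 ≤ M ^ 5 := Nat.one_le_pow _ _ hM1
  have h6 : M ^ 5 ≤ M ^ 6 := Nat.pow_le_pow_right hM1 (by norm_num)
  have hn : n + 1 ≤ M := by omega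
  have h7 := Nat.mul_le_mul_right (M ^ 5) hn
  have h8 : M * M ^ 5 = M ^ 6 := by ring
  rw [h8] at h7
  constructor
  · omega
  · have h9 : (n + 1) * M ^ 5 = n * M ^ 5 + M ^ 5 := by ring
    have h10 : n * (32 * M ^ 5) = 32 * (n * M ^ 5) := by ring
    rw [h9] at h7
    rw [h10]
    omega

theorem weight_lt (n m p : ℕ) (hp : p.Prime) (hpR : p ≤ bound n m) (b : Fin (levels n) → ℕ)
    (k : Fin m) : weight n m p b k < (33 * (n + m + 1) ^ 6) ^ levels n := by
  obtain ⟨h1, h2⟩ := bound_lt n m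
  set A := 33 * (n + m + 1) ^ 6 with hA
  have hA1 : 1 ≤ A := by omega
  have h3 : weight n m p b k ≤ ∑ i : Fin (levels n), (A - 1) * A ^ (i : ℕ) := by
    refine Finset.sum_le_sum fun i _ => Nat.mul_le_mul ?_ (Nat.pow_le_pow_left h2.le _)
    have := Nat.mod_lt (b i ^ (k : ℕ)) hp.pos
    omega
  have h4 : ∀ L : ℕ, ∑ i : Fin L, (A - 1) * A ^ (i : ℕ) + 1 = A ^ L := by
    intro L
    induction L with
    | zero => simp
    | succ L ih =>
      rw [Fin.sum_univ_castSucc]
      simp only [Fin.val_castSucc, Fin.val_last]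
      have h5 : (A - 1) * A ^ L + A ^ L = A ^ (L + 1) := by
        obtain ⟨c, hc⟩ : ∃ c, A = c + 1 := ⟨A - 1, by omega⟩
        rw [hc, Nat.add_sub_cancel]
        ring
      omega
  have := h4 (levels n)
  omega

theorem exists_max {F : Type*} [Field F] {n m : ℕ} (B₀ : Matrix (Fin n) (Fin n) F)
    (B : Fin m → Matrix (Fin n) (Fin n) F) : ∃ x : Fin m → F, ∀ y : Fin m → F,
      (B₀ + ∑ k, y k • B k).rank ≤ (B₀ + ∑ k, x k • B k).rank := by
  classical
  have hb : ∀ y : Fin m → F, (B₀ + ∑ k, y k • B k).rank ≤ n := fun y => by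
    simpa using Matrix.rank_le_card_width (B₀ + ∑ k, y k • B k)
  have hex : ∃ r, ∃ x : Fin m → F, n - (B₀ + ∑ k, x k • B k).rank = r := ⟨_, 0, rfl⟩
  obtain ⟨x, hx⟩ := Nat.find_spec hex
  refine ⟨x, fun y => ?_⟩
  have h3 := Nat.find_min' hex ⟨y, rfl⟩
  have h4 := hb x
  have h5 := hb y
  omega

theorem eq_vecMulVec {F : Type*} [Field F] {n : ℕ} (A : Matrix (Fin n) (Fin n) F)
    (h : A.rank ≤ 1) : ∃ u v : Fin n → F, A = vecMulVec u v := by
  classical
  have h1 : Module.finrank F (LinearMap.range A.mulVecLin) ≤ 1 := h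
  obtain ⟨v₀, hv₀⟩ := finrank_le_one_iff.mp h1
  have h2 : ∀ j, ∃ c : F, ∀ i, A i j = (v₀ : Fin n → F) i * c := by
    intro j
    obtain ⟨c, hc⟩ := hv₀ ⟨A.mulVecLin (Pi.single j 1), ⟨_, rfl⟩⟩
    refine ⟨c, fun i => ?_⟩
    have h3 : (c • (v₀ : Fin n → F)) i = (A *ᵥ Pi.single j 1) i :=
      congrFun (congrArg Subtype.val hc) i
    rw [Matrix.mulVec_single_one] at h3
    rw [mul_comm]
    exact h3.symm
  choose c hc using h2
  exact ⟨v₀, c, by ext i j; rw [vecMulVec_apply]; exact hc j i⟩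

theorem submatrix_eq {F : Type*} [Field F] {n r : ℕ} (A : Matrix (Fin n) (Fin n) F)
    (I J : Fin r → Fin n) :
    (1 : Matrix (Fin n) (Fin n) F).submatrix I id * A * (1 : Matrix (Fin n) (Fin n) F).submatrix
      id J = A.submatrix I J := by
  ext i j
  simp [Matrix.mul_apply, Matrix.one_apply]

theorem rankOne.{u} (n m : ℕ) :
    (testSet n m).card ≤ (33 * (n + m + 1) ^ 6) ^ (2 * Nat.log 2 n + 5) ∧
    (∀ h ∈ testSet n m, ∀ k, h k ≤ ((33 * (n + m + 1) ^ 6) ^ (Nat.log 2 n + 2)) ^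
      ((33 * (n + m + 1) ^ 6) ^ (Nat.log 2 n + 2))) ∧
    ∀ (F : Type u) [Field F] [CharZero F] (B₀ : Matrix (Fin n) (Fin n) F)
      (B : Fin m → Matrix (Fin n) (Fin n) F),
      ((∀ k, (B k).rank ≤ 1) → ∃ h ∈ testSet n m, ∀ x : Fin m → F,
        (B₀ + ∑ k, x k • B k).rank ≤ (B₀ + ∑ k, (h k : F) • B k).rank) := by
  classical
  obtain ⟨h1, h2⟩ := bound_lt n m
  refine ⟨?_, ?_, ?_⟩
  · set A := 33 * (n + m + 1) ^ 6 with hA
    refine Finset.card_image_le.trans ?_
    rw [Finset.card_product, Finset.card_product, Fintype.card_piFinset]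
    simp only [Finset.card_range, Finset.prod_const, Finset.card_univ, Fintype.card_fin]
    have e1 : ((Finset.range (bound n m + 1)).filter Nat.Prime).card ≤ A := by
      refine (Finset.card_filter_le _ _).trans ?_
      rw [Finset.card_range]
      exact h1
    have e2 : (bound n m + 1) ^ levels n ≤ A ^ levels n := Nat.pow_le_pow_left h1 _
    have e3 : (n * bound n m + 1) ^ levels n + 1 ≤ A ^ levels n :=
      Nat.pow_lt_pow_left h2 (by rw [levels]; omega)
    calc _ ≤ A * (A ^ levels n * A ^ levels n) := Nat.mul_le_mul e1 (Nat.mul_le_mul e2 e3)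
      _ = A ^ (2 * Nat.log 2 n + 5) := by
        rw [levels, ← pow_add, ← pow_succ']
        congr 1
        omega
  · intro h hh k
    rw [testSet, Finset.mem_image] at hh
    obtain ⟨⟨p, b, t⟩, hq, rfl⟩ := hh
    rw [Finset.mem_product, Finset.mem_product, Finset.mem_filter, Finset.mem_range,
      Finset.mem_range] at hq
    obtain ⟨⟨hpR, hp⟩, -, ht⟩ := hq
    have hpR' : p ≤ bound n m := Nat.lt_succ_iff.mp hpR
    have ht' : t ≤ (n * bound n m + 1) ^ levels n := Nat.lt_succ_iff.mp ht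
    have hw := weight_lt n m p hp hpR' b k
    rw [levels] at ht' hw
    set A := 33 * (n + m + 1) ^ 6 with hA
    have hA0 : 0 < A := by omega
    have ht2 : t ≤ A ^ (Nat.log 2 n + 2) := ht'.trans (Nat.pow_le_pow_left h2.le _)
    calc t ^ weight n m p b k ≤ (A ^ (Nat.log 2 n + 2)) ^ weight n m p b k :=
          Nat.pow_le_pow_left ht2 _
      _ ≤ _ := Nat.pow_le_pow_right (Nat.pow_pos hA0) hw.le
  · intro F _ _ B₀ B
    have hmem : ∀ (p t : ℕ) (b : Fin (levels n) → ℕ), p ≤ bound n m → p.Prime →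
        (∀ i, b i < p) → t ≤ (n * bound n m + 1) ^ levels n →
        (fun k => t ^ weight n m p b k) ∈ testSet n m := by
      intro p t b hp hpr hb ht
      rw [testSet, Finset.mem_image]
      refine ⟨⟨p, b, t⟩, ?_, rfl⟩
      rw [Finset.mem_product, Finset.mem_product, Finset.mem_filter, Finset.mem_range,
        Finset.mem_range, Fintype.mem_piFinset]
      refine ⟨⟨Nat.lt_succ_of_le hp, hpr⟩, fun i => ?_, Nat.lt_succ_of_le ht⟩
      rw [Finset.mem_range]
      exact lt_of_lt_of_le (hb i) (hp.trans (Nat.le_succ _))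
    have main : ∀ (r : ℕ) (S₀ : Matrix (Fin r) (Fin n) F) (T₀ : Matrix (Fin n) (Fin r) F),
        r ≤ n → DualExact (S₀ * B₀ * T₀) (fun k => S₀ * B k * T₀) →
        ∃ h ∈ testSet n m, r ≤ (B₀ + ∑ k, (h k : F) • B k).rank := by
      intro r S₀ T₀ hr hex
      obtain ⟨p, hp, hpr, b, hb, t, ht, h⟩ := cert_point (n := n)
        (by rw [Fintype.card_fin]; exact hr) (S₀ * B₀ * T₀) (fun k => S₀ * B k * T₀)
        (cert_of_dualExact hex)
      refine ⟨fun k => t ^ weight n m p b k, hmem p t b hp hpr hb ht, ?_⟩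
      have e : S₀ * B₀ * T₀ + ∑ k : Fin m, ((t ^ (∑ i, (b i ^ (k : ℕ) % p) *
          (n * (32 * (n + m + 1) ^ 5) + 1) ^ (i : ℕ)) : ℕ) : F) • (S₀ * B k * T₀) =
          S₀ * (B₀ + ∑ k : Fin m, ((t ^ weight n m p b k : ℕ) : F) • B k) * T₀ := by
        rw [Matrix.mul_add, Matrix.add_mul, Matrix.mul_sum, Matrix.sum_mul]
        congr 1
        refine Finset.sum_congr rfl fun k _ => ?_
        rw [Matrix.mul_smul, Matrix.smul_mul]
        rfl
      rw [e] at h
      have h3 := Matrix.rank_of_det_ne_zero h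
      rw [Fintype.card_fin] at h3
      rw [← h3]
      exact (Matrix.rank_mul_le_left _ _).trans (Matrix.rank_mul_le_right _ _)
    · intro hr1
      obtain ⟨x, hx⟩ := exists_max B₀ B
      obtain ⟨I, J, hIJ⟩ := exists_minor (B₀ + ∑ k, x k • B k)
      choose u v huv using fun k => eq_vecMulVec (B k) (hr1 k)
      have hle : (B₀ + ∑ k, x k • B k).rank ≤ n := by
        simpa using Matrix.rank_le_card_width (B₀ + ∑ k, x k • B k)
      have hsub : ∀ k, (1 : Matrix (Fin n) (Fin n) F).submatrix I id * B k *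
          (1 : Matrix (Fin n) (Fin n) F).submatrix id J = vecMulVec (u k ∘ I) (v k ∘ J) := by
        intro k
        rw [submatrix_eq, huv k]
        rfl
      obtain ⟨h, hh, hrk⟩ := main _ ((1 : Matrix (Fin n) (Fin n) F).submatrix I id)
        ((1 : Matrix (Fin n) (Fin n) F).submatrix id J) hle (by
          simp only [hsub]
          refine dualExact_of_rankOne _ _ _ (det_symb_ne_zero _ _ x ?_)
          have e : (1 : Matrix (Fin n) (Fin n) F).submatrix I id * B₀ *
              (1 : Matrix (Fin n) (Fin n) F).submatrix id J +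
              ∑ k, x k • vecMulVec (u k ∘ I) (v k ∘ J) =
              (B₀ + ∑ k, x k • B k).submatrix I J := by
            rw [submatrix_eq]
            ext i j
            simp [Matrix.sum_apply, huv, vecMulVec_apply]
          rw [e]
          exact hIJ)
      exact ⟨h, hh, fun y => (hx y).trans hrk⟩

end Pool.Agent.Lib.MP_64d474_lc.SubExp
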