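import Mathlib

/-!
# A one-parameter family of linear maps `L^t → L^b` that is onto on every large subspace
-/

set_option autoImplicit false

namespace Pool.Agent.Lib.MP_64d474_lc.SubExp

open Finset Polynomial

/-- a subspace of dimension at least `b` contains `b` vectors with different first nonzero
positions -/
theorem exists_echelon {L : Type*} [Field L] {t b : ℕ} (T : Submodule L (Fin t → L))
    (h : b ≤ Module.finrank L T) :
    ∃ (θ : Fin b → Fin t → L) (p : Fin b → Fin t), StrictMono p ∧ (∀ l, θ l ∈ T) ∧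
      (∀ l, θ l (p l) ≠ 0) ∧ ∀ l j, j < p l → θ l j = 0 := by
  classical
  set J : Finset (Fin t) := univ.filter fun j => ∃ v ∈ T, v j ≠ 0 ∧ ∀ i < j, v i = 0 with hJ
  have hcard : b ≤ J.card := by
    refine h.trans ?_
    have e : Module.finrank L (J → L) = J.card := by
      rw [Module.finrank_fintype_fun_eq_card, Fintype.card_coe]
    rw [← e]
    let f : T →ₗ[L] (J → L) :=
      { toFun := fun v j => (v : Fin t → L) j
        map_add' := fun v w => rfl
        map_smul' := fun c v => rfl }
    apply LinearMap.finrank_le_finrank_of_injective (f := f)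
    rw [← LinearMap.ker_eq_bot, LinearMap.ker_eq_bot']
    intro v hv
    by_contra hne
    have hne' : ∃ j, (v : Fin t → L) j ≠ 0 := by
      by_contra hcon
      push Not at hcon
      apply hne
      ext j
      exact hcon j
    obtain ⟨j, hj, hmin⟩ := WellFounded.has_min (wellFounded_lt (α := Fin t))
      {j | (v : Fin t → L) j ≠ 0} hne'
    have hjJ : j ∈ J := by
      rw [hJ, mem_filter]
      refine ⟨mem_univ _, v, v.2, hj, fun i hi => ?_⟩
      by_contra hc
      exact hmin i hc hi
    have := congrFun hv ⟨j, hjJ⟩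
    exact hj this
  obtain ⟨J', hJ', hc⟩ := exists_subset_card_eq hcard
  have hmem : ∀ l : Fin b, J'.orderEmbOfFin hc l ∈ J := fun l =>
    hJ' (orderEmbOfFin_mem _ _ _)
  have hex : ∀ l : Fin b, ∃ v ∈ T, v (J'.orderEmbOfFin hc l) ≠ 0 ∧
      ∀ i < J'.orderEmbOfFin hc l, v i = 0 := by
    intro l
    have := hmem l
    rw [hJ, mem_filter] at this
    exact this.2
  choose θ hθ using hex
  exact ⟨θ, fun l => J'.orderEmbOfFin hc l, (J'.orderEmbOfFin hc).strictMono,
    fun l => (hθ l).1, fun l => (hθ l).2.1, fun l j hj => (hθ l).2.2 j hj⟩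

/-- the matrix of the extractor on vectors in echelon form is invertible -/
theorem det_extract_ne_zero {L : Type*} [Field L] [CharZero L] {t b : ℕ}
    (θ : Fin b → Fin t → L) (p : Fin b → Fin t) (hp : StrictMono p)
    (h1 : ∀ l, θ l (p l) ≠ 0) (h2 : ∀ l j, j < p l → θ l j = 0) :
    (Matrix.of fun a l : Fin b => ∑ j : Fin t,
      (C (θ l j) * (C ((2 : L) ^ (a : ℕ)) * X) ^ ((j : ℕ) + 1) : L[X])).det ≠ 0 := by
  set H : Matrix (Fin b) (Fin b) L[X] := Matrix.of fun a l => ∑ j : Fin t,
    C (θ l j) * C ((2 : L) ^ (a : ℕ)) ^ ((j : ℕ) + 1) * X ^ ((j : ℕ) - (p l : ℕ)) with hH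
  have e : (Matrix.of fun a l : Fin b => ∑ j : Fin t,
      (C (θ l j) * (C ((2 : L) ^ (a : ℕ)) * X) ^ ((j : ℕ) + 1) : L[X])) =
      Matrix.of fun a l => (X : L[X]) ^ ((p l : ℕ) + 1) * H a l := by
    ext1 a l
    rw [Matrix.of_apply, Matrix.of_apply, hH, Matrix.of_apply, mul_sum]
    refine sum_congr rfl fun j _ => ?_
    by_cases hj : j < p l
    · rw [h2 l j hj]
      simp
    · have hj' : (p l : ℕ) ≤ (j : ℕ) := by
        rw [not_lt] at hj
        exact hj
      have e2 : (j : ℕ) + 1 = ((p l : ℕ) + 1) + ((j : ℕ) - (p l : ℕ)) := by omega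
      rw [mul_pow]
      conv_lhs => rw [e2]
      rw [pow_add X, ← e2]
      ring
  rw [e, Matrix.det_mul_row]
  refine mul_ne_zero (prod_ne_zero_iff.2 fun l _ => pow_ne_zero _ X_ne_zero) ?_
  intro h0
  have h3 := congrArg (Polynomial.evalRingHom (0 : L)) h0
  rw [RingHom.map_det, map_zero] at h3
  have h4 : (Polynomial.evalRingHom (0 : L)).mapMatrix H =
      Matrix.of fun a l : Fin b => θ l (p l) *
        (Matrix.vandermonde fun l : Fin b => (2 : L) ^ ((p l : ℕ) + 1)).transpose a l := by
    ext1 a l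
    rw [RingHom.mapMatrix_apply, Matrix.map_apply, hH, Matrix.of_apply, Matrix.of_apply,
      map_sum, Matrix.transpose_apply, Matrix.vandermonde_apply]
    rw [sum_eq_single (p l)]
    · rw [Polynomial.coe_evalRingHom, Nat.sub_self, pow_zero, mul_one, Polynomial.eval_mul,
        Polynomial.eval_pow, Polynomial.eval_C, Polynomial.eval_C]
      rw [← pow_mul, ← pow_mul, mul_comm (a : ℕ)]
    · intro j _ hj
      by_cases hlt : j < p l
      · rw [h2 l j hlt]
        simp
      · have hgt : p l < j := lt_of_le_of_ne (not_lt.1 hlt) (Ne.symm hj)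
        have hgt' : (p l : ℕ) < (j : ℕ) := hgt
        rw [Polynomial.coe_evalRingHom, Polynomial.eval_mul, Polynomial.eval_pow,
          Polynomial.eval_X, zero_pow (by omega), mul_zero]
    · intro h
      exact absurd (mem_univ _) h
  rw [h4, Matrix.det_mul_row, Matrix.det_transpose] at h3
  rcases mul_eq_zero.1 h3 with h5 | h5
  · rw [prod_eq_zero_iff] at h5
    obtain ⟨l, _, hl⟩ := h5
    exact h1 l hl
  · refine (Matrix.det_vandermonde_ne_zero_iff.2 ?_) h5
    intro l l' hll
    have h6 : (2 : L) ^ ((p l : ℕ) + 1) = (2 : L) ^ ((p l' : ℕ) + 1) := hll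
    have h7 : ((2 ^ ((p l : ℕ) + 1) : ℕ) : L) = ((2 ^ ((p l' : ℕ) + 1) : ℕ) : L) := by
      push_cast; exact h6
    have h8 := Nat.cast_injective h7
    have h9 := Nat.pow_right_injective (le_refl 2) h8
    have h10 : (p l : ℕ) = (p l' : ℕ) := by omega
    exact hp.injective (Fin.ext h10)

end Pool.Agent.Lib.MP_64d474_lc.SubExp
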