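import Pool.Agent.Lib.MP_64d474_lc.SubExp.Invar

/-!
# The determinant is multiplied by a unit under an admissible first-order change
-/

set_option autoImplicit false

namespace Pool.Agent.Lib.MP_64d474_lc.SubExp

open MvPolynomial

variable {F : Type*} [Field F] {t b : ℕ}

/-- the matrix `C₀ + ∑ Z_l C_l + ∑ X_a A_a` over `F[Z][X]` -/
noncomputable def bigMat {n : Type*} (C₀ : Matrix n n F) (Cj : Fin t → Matrix n n F)
    (A : Fin b → Matrix n n F) : Matrix n n (MvPolynomial (Fin b) (MvPolynomial (Fin t) F)) :=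
  Matrix.of fun i j => C (C (C₀ i j) + ∑ l, X l * C (Cj l i j)) + ∑ a, X a * C (C (A a i j))

theorem eval_bigMat {n : Type*} [Fintype n] [DecidableEq n] {R : Type*} [CommRing R]
    (χ : MvPolynomial (Fin t) F →+* R) (p : Fin b → R) (C₀ : Matrix n n F)
    (Cj : Fin t → Matrix n n F) (A : Fin b → Matrix n n F) :
    eval₂ χ p (bigMat C₀ Cj A).det =
      (C₀.map (χ.comp C) + ∑ j, χ (X j) • (Cj j).map (χ.comp C) +
        ∑ a, p a • (A a).map (χ.comp C)).det := by
  rw [← coe_eval₂Hom, RingHom.map_det]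
  congr 1
  ext i j
  simp only [RingHom.mapMatrix_apply, Matrix.map_apply, bigMat, Matrix.of_apply, coe_eval₂Hom,
    eval₂_add, eval₂_C, eval₂_sum, eval₂_mul, eval₂_X, map_add, map_sum, map_mul,
    Matrix.add_apply, Matrix.sum_apply, Matrix.smul_apply, smul_eq_mul, RingHom.comp_apply]

variable {L T : Type*} [CommRing L] [CommRing T]

/-- the first-order change `Z_j ↦ Z_j + ε θ_j` on polynomials in `Z` -/
noncomputable def phi (σ : L →+* T) (e : T) (μ : F →+* L) (Zl θ : Fin t → L) :
    MvPolynomial (Fin t) F →+* T :=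
  eval₂Hom (σ.comp μ) (fun j => σ (Zl j) + e * σ (θ j))

theorem phi_zero (σ : L →+* T) (e : T) (μ : F →+* L) (Zl : Fin t → L) :
    phi σ e μ Zl 0 = σ.comp (eval₂Hom μ Zl) := by
  apply MvPolynomial.ringHom_ext
  · intro c
    simp [phi]
  · intro j
    simp [phi]

/-- the unit -/
noncomputable def unitOf (σ : L →+* T) (e : T) {n : Type*} [Fintype n] [DecidableEq n]
    (N : Matrix n n L) : T :=
  (1 + e • N.map σ).det

theorem isUnit_unitOf (σ : L →+* T) (e : T) (he : e * e = 0) {n : Type*} [Fintype n]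
    [DecidableEq n] (N : Matrix n n L) : IsUnit (unitOf σ e N) := by
  rw [unitOf, isUnit_iff_exists_inv]
  refine ⟨(1 - e • N.map σ).det, ?_⟩
  rw [← Matrix.det_mul]
  have : (1 + e • N.map σ) * (1 - e • N.map σ) = 1 := by
    have h1 : (e • N.map σ) * (e • N.map σ) = 0 := by
      rw [smul_mul_smul_comm, he, zero_smul]
    rw [mul_sub, mul_one, add_mul, one_mul, h1]
    abel
  rw [this, Matrix.det_one]

theorem map_eq_eval₂ (f : MvPolynomial (Fin t) F →+* T)
    (g : MvPolynomial (Fin b) (MvPolynomial (Fin t) F)) :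
    map f g = eval₂ ((C : T →+* MvPolynomial (Fin b) T).comp f) X g := by
  have h1 : (map f : MvPolynomial (Fin b) (MvPolynomial (Fin t) F) →+* MvPolynomial (Fin b) T) =
      eval₂Hom ((C : T →+* MvPolynomial (Fin b) T).comp f) X := by
    apply MvPolynomial.ringHom_ext
    · intro c
      rw [map_C, coe_eval₂Hom, eval₂_C, RingHom.comp_apply]
    · intro j
      rw [map_X, coe_eval₂Hom, eval₂_X]
  rw [h1, coe_eval₂Hom]

theorem map_det_eq {n ρ ρ' : Type*} [Fintype n] [DecidableEq n] [Fintype ρ]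
    [DecidableEq ρ] [Fintype ρ'] [DecidableEq ρ'] (σ : L →+* T) (e : T) (he : e * e = 0)
    (μ : F →+* L) (Zl θ : Fin t → L) (C₀ : Matrix n n F) (Cj : Fin t → Matrix n n F)
    (A : Fin b → Matrix n n F) (U : Matrix n ρ F) (V : Matrix ρ' n F)
    (D : Fin b → Matrix ρ ρ' F) (hA : ∀ a, A a = U * D a * V) (x₀ : Fin b → L)
    (Mi : Matrix n n L)
    (hM : (C₀.map μ + ∑ j, Zl j • (Cj j).map μ + ∑ a, x₀ a • (A a).map μ) * Mi = 1)
    (hθ : V.map μ * (Mi * (∑ j, θ j • (Cj j).map μ) * (Mi * U.map μ)) = 0) :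
    map (phi σ e μ Zl θ) (bigMat C₀ Cj A).det =
      C (unitOf σ e (Mi * ∑ j, θ j • (Cj j).map μ)) *
        map (phi σ e μ Zl 0) (bigMat C₀ Cj A).det := by
  set Cθ := ∑ j, θ j • (Cj j).map μ with hCθ
  set M1 := C₀.map μ + ∑ j, Zl j • (Cj j).map μ + ∑ a, x₀ a • (A a).map μ with hM1
  set lam : L →+* MvPolynomial (Fin b) T := (C : T →+* MvPolynomial (Fin b) T).comp σ with hlam
  set e' : MvPolynomial (Fin b) T := C e with he'
  have hee : e' * e' = 0 := by
    rw [he', ← map_mul, he, map_zero]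
  have hbase : ∀ η : Fin t → L,
      ((C : T →+* MvPolynomial (Fin b) T).comp (phi σ e μ Zl η)).comp C = lam.comp μ := by
    intro η
    apply RingHom.ext
    intro c
    rw [RingHom.comp_apply, RingHom.comp_apply, phi, coe_eval₂Hom, eval₂_C, hlam]
    rfl
  have hX : ∀ (η : Fin t → L) (j : Fin t),
      ((C : T →+* MvPolynomial (Fin b) T).comp (phi σ e μ Zl η)) (X j) =
        lam (Zl j) + e' * lam (η j) := by
    intro η j
    rw [RingHom.comp_apply, phi, coe_eval₂Hom, eval₂_X, map_add, map_mul]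
    rfl
  -- the block
  set XX : Matrix ρ ρ' (MvPolynomial (Fin b) T) :=
    ∑ a, ((X a : MvPolynomial (Fin b) T) - lam (x₀ a)) • (D a).map (lam.comp μ) with hXX
  have hU : (U.map μ).map lam * XX * (V.map μ).map lam =
      ∑ a, ((X a : MvPolynomial (Fin b) T) - lam (x₀ a)) • (A a).map (lam.comp μ) := by
    rw [hXX, Matrix.mul_sum, Matrix.sum_mul]
    refine Finset.sum_congr rfl fun a _ => ?_
    rw [Matrix.mul_smul, Matrix.smul_mul, hA a, Matrix.map_mul, Matrix.map_mul]
    rfl
  have hrepr : ∀ η : Fin t → L,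
      C₀.map (lam.comp μ) + ∑ j, (lam (Zl j) + e' * lam (η j)) • (Cj j).map (lam.comp μ) +
        ∑ a, (X a : MvPolynomial (Fin b) T) • (A a).map (lam.comp μ) =
      M1.map lam + e' • (∑ j, η j • (Cj j).map μ).map lam +
        (U.map μ).map lam * XX * (V.map μ).map lam := by
    intro η
    rw [hU]
    ext1 i j
    simp only [hM1, Matrix.add_apply, Matrix.sum_apply, Matrix.smul_apply, Matrix.map_apply,
      smul_eq_mul, map_add, map_sum, map_mul, RingHom.comp_apply]
    simp only [add_mul, sub_mul, Finset.sum_add_distrib, Finset.sum_sub_distrib, Finset.mul_sum,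
      mul_assoc]
    ring
  have hMM : M1.map lam * Mi.map lam = 1 := by
    rw [← Matrix.map_mul, hM]
    ext1 i j
    rw [Matrix.map_apply, Matrix.one_apply, Matrix.one_apply]
    split_ifs
    · exact map_one _
    · exact map_zero _
  have hzero : (V.map μ).map lam * (Mi.map lam * Cθ.map lam * (Mi.map lam * (U.map μ).map lam)) =
      0 := by
    rw [← Matrix.map_mul, ← Matrix.map_mul, ← Matrix.map_mul, ← Matrix.map_mul, hθ]
    exact Matrix.map_zero _ (map_zero lam)
  have key : ∀ η : Fin t → L, map (phi σ e μ Zl η) (bigMat C₀ Cj A).det =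
      (M1.map lam + e' • (∑ j, η j • (Cj j).map μ).map lam +
        (U.map μ).map lam * XX * (V.map μ).map lam).det := by
    intro η
    rw [← hrepr η]
    have h1 := eval_bigMat (R := MvPolynomial (Fin b) T)
      ((C : T →+* MvPolynomial (Fin b) T).comp (phi σ e μ Zl η)) X C₀ Cj A
    rw [hbase] at h1
    simp only [hX] at h1
    rw [← h1]
    exact map_eq_eval₂ _ _
  rw [key θ, key 0, det_dual e' hee (M1.map lam) (Mi.map lam) (Cθ.map lam) hMM
    ((U.map μ).map lam) ((V.map μ).map lam) XX hzero]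
  congr 1
  · rw [unitOf, RingHom.map_det]
    congr 1
    ext1 i j
    rw [RingHom.mapMatrix_apply, Matrix.map_apply, Matrix.add_apply, Matrix.add_apply,
      Matrix.smul_apply, Matrix.smul_apply, ← Matrix.map_mul, Matrix.map_apply,
      Matrix.map_apply, map_add, smul_eq_mul, smul_eq_mul, map_mul]
    congr 1
    rw [Matrix.one_apply, Matrix.one_apply]
    split_ifs
    · exact (map_one _).symm
    · exact (map_zero _).symm
  · congr 1
    have h2 : (∑ j, (0 : Fin t → L) j • (Cj j).map μ) = 0 := by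
      simp
    rw [h2, Matrix.map_zero _ (map_zero lam), smul_zero, add_zero]

end Pool.Agent.Lib.MP_64d474_lc.SubExp
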