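import Mathlib

/-!
# Vanishing on a family of points with a large space of admissible directions
-/

set_option autoImplicit false

namespace Pool.Agent.Lib.MP_64d474_lc.SubExp

open MvPolynomial

/-- Taylor expansion of first order -/
theorem taylor {A S T : Type*} [CommRing A] [CommRing S] [CommRing T] {b : ℕ} (i : S →+* T)
    (e : T) (he : e * e = 0) (κ : A →+* S) (x δ : Fin b → S) (g : MvPolynomial (Fin b) A) :
    eval₂ (i.comp κ) (fun a => i (x a) + e * i (δ a)) g =
      i (eval₂ κ x g) + e * i (∑ a, δ a * eval₂ κ x (pderiv a g)) := by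
  induction g using MvPolynomial.induction_on with
  | C c =>
    simp only [eval₂_C, pderiv_C, eval₂_zero, mul_zero, Finset.sum_const_zero, map_zero,
      add_zero, RingHom.comp_apply]
  | add p q hp hq =>
    rw [eval₂_add, hp, hq]
    simp only [map_add, eval₂_add, mul_add, Finset.sum_add_distrib]
    ring
  | mul_X p j hp =>
    rw [eval₂_mul, hp, eval₂_X]
    have h1 : ∀ a, eval₂ κ x (pderiv a (p * X j)) =
        eval₂ κ x (pderiv a p) * x j + eval₂ κ x p * (if j = a then 1 else 0) := by
      intro a
      rw [Derivation.leibniz, smul_eq_mul, smul_eq_mul, pderiv_X, eval₂_add, eval₂_mul,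
        eval₂_mul, eval₂_X]
      rw [add_comm, mul_comm (x j)]
      congr 2
      by_cases h : j = a
      · subst h
        simp
      · rw [if_neg h, Pi.single_eq_of_ne h, eval₂_zero]
    simp only [h1, mul_add, Finset.sum_add_distrib]
    have h2 : ∑ a, δ a * (eval₂ κ x p * (if j = a then 1 else 0)) = δ j * eval₂ κ x p := by
      rw [Finset.sum_eq_single j]
      · simp
      · intro k _ hk
        rw [if_neg (Ne.symm hk)]
        ring
      · intro h
        exact absurd (Finset.mem_univ _) h
    have h3 : ∑ a, δ a * (eval₂ κ x (pderiv a p) * x j) =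
        (∑ a, δ a * eval₂ κ x (pderiv a p)) * x j := by
      rw [Finset.sum_mul]
      exact Finset.sum_congr rfl fun a _ => by ring
    rw [h2, h3, eval₂_mul, eval₂_X]
    simp only [map_add, map_mul]
    linear_combination (i (∑ a, δ a * eval₂ κ x (pderiv a p)) * i (δ j)) * he

/-- a polynomial all of whose partial derivatives vanish is constant -/
theorem eq_C_of_pderiv {A : Type*} [CommRing A] [IsDomain A] [CharZero A] {b : ℕ}
    (g : MvPolynomial (Fin b) A) (h : ∀ a, pderiv a g = 0) : g = C (coeff 0 g) := by
  ext d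
  rw [coeff_C]
  split_ifs with hd
  · rw [hd]
  · obtain ⟨a, ha⟩ : ∃ a, d a ≠ 0 := by
      by_contra hc
      push Not at hc
      exact hd (Finsupp.ext fun a => (hc a).symm)
    have h1 := congrArg (coeff (d - Finsupp.single a 1)) (h a)
    have h3 : Finsupp.single a 1 ≤ d := by
      rw [Finsupp.single_le_iff]
      exact Nat.one_le_iff_ne_zero.2 ha
    rw [coeff_zero, coeff_pderiv, tsub_add_cancel_of_le h3] at h1
    rcases mul_eq_zero.1 h1 with h4 | h4
    · exact h4
    · exfalso
      exact Nat.cast_add_one_ne_zero _ h4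

theorem totalDegree_pderiv_le {A : Type*} [CommRing A] {b N : ℕ} (g : MvPolynomial (Fin b) A)
    (hg : g.totalDegree ≤ N + 1) (a : Fin b) : (pderiv a g).totalDegree ≤ N := by
  rw [totalDegree]
  apply Finset.sup_le
  intro d hd
  rw [mem_support_iff, coeff_pderiv] at hd
  have h1 : coeff (d + Finsupp.single a 1) g ≠ 0 := left_ne_zero_of_mul hd
  have h2 := le_totalDegree (mem_support_iff.2 h1)
  rw [Finsupp.sum_add_index' (fun _ => rfl) (fun _ _ _ => rfl),
    Finsupp.sum_single_index rfl] at h2
  omega

/-- Let `g` be a polynomial that vanishes at the point `x`.  If `g` is multiplied by a unit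
under the first-order change `ψ θ` of its coefficients, for every direction `θ`, and the
corresponding changes of `x` span, then `g = 0`. -/
theorem vanish {A S T Θ : Type*} [CommRing A] [IsDomain A] [CharZero A] [CommRing S] [IsDomain S]
    [CommRing T] {b : ℕ} (i : S →+* T) (e : T) (he : e * e = 0)
    (hinj : ∀ s s', i s + e * i s' = 0 → s' = 0)
    (κ : Polynomial A →+* S) (hκ : Function.Injective κ)
    (ψ : Θ → Polynomial A →+* T) (x : Fin b → Polynomial A) (d : Θ → Fin b → S)
    (hψ : ∀ θ a, ψ θ (x a) = i (κ (x a)) + e * i (d θ a)) (th : Fin b → Θ)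
    (hdet : (Matrix.of fun l a : Fin b => d (th l) a).det ≠ 0)
    (u : Θ → T) (hu : ∀ θ, IsUnit (u θ)) :
    ∀ (N : ℕ) (g : MvPolynomial (Fin b) A), g.totalDegree ≤ N →
      (∀ θ, map ((ψ θ).comp Polynomial.C) g =
        C (u θ) * map (i.comp (κ.comp Polynomial.C)) g) →
      eval₂ Polynomial.C x g = 0 → g = 0 := by
  have hstep : ∀ g : MvPolynomial (Fin b) A,
      (∀ θ, map ((ψ θ).comp Polynomial.C) g =
        C (u θ) * map (i.comp (κ.comp Polynomial.C)) g) →
      eval₂ Polynomial.C x g = 0 → ∀ a, eval₂ Polynomial.C x (pderiv a g) = 0 := by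
    intro g hP h0
    have h1 : ∀ θ, ∑ a, d θ a *
        eval₂ (κ.comp Polynomial.C) (fun a => κ (x a)) (pderiv a g) = 0 := by
      intro θ
      have h2 : ψ θ (eval₂ Polynomial.C x g) = 0 := by rw [h0, map_zero]
      rw [hom_eval₂] at h2
      have h3 : eval₂ ((ψ θ).comp Polynomial.C) (fun i => ψ θ (x i)) g =
          eval (fun i => ψ θ (x i)) (map ((ψ θ).comp Polynomial.C) g) := by
        rw [eval_map]
      rw [h3, hP θ, map_mul, eval_C, eval_map] at h2
      have h4 := ((hu θ).mul_right_eq_zero).1 h2
      have h5 : (fun j => ψ θ (x j)) = fun a => i (κ (x a)) + e * i (d θ a) := by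
        funext a
        exact hψ θ a
      rw [h5, taylor i e he] at h4
      exact hinj _ _ h4
    have h7 : (Matrix.of fun l a : Fin b => d (th l) a).mulVec
        (fun a => eval₂ (κ.comp Polynomial.C) (fun a => κ (x a)) (pderiv a g)) = 0 := by
      funext l
      exact h1 (th l)
    have h8 := Matrix.eq_zero_of_mulVec_eq_zero hdet h7
    intro a
    apply hκ
    rw [map_zero, hom_eval₂]
    exact congrFun h8 a
  intro N
  induction N with
  | zero =>
    intro g hN hP h0
    have hg : g = C (coeff 0 g) := totalDegree_eq_zero_iff_eq_C.1 (Nat.le_zero.1 hN)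
    rw [hg, eval₂_C] at h0
    have h1 := Polynomial.C_eq_zero.1 h0
    rw [hg, h1, map_zero]
  | succ N ih =>
    intro g hN hP h0
    have h1 := hstep g hP h0
    have h2 : ∀ a, pderiv a g = 0 := by
      intro a
      apply ih
      · exact totalDegree_pderiv_le g hN a
      · intro θ
        rw [← pderiv_map, hP θ, ← pderiv_map, Derivation.leibniz, pderiv_C, smul_zero, add_zero,
          smul_eq_mul]
      · exact h1 a
    have hg := eq_C_of_pderiv g h2
    rw [hg, eval₂_C] at h0
    have h1 := Polynomial.C_eq_zero.1 h0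
    rw [hg, h1, map_zero]

end Pool.Agent.Lib.MP_64d474_lc.SubExp
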