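import Pool.Agent.Lib.MP_64d474_lc.SubExp.Defs

/-!
# The size of the test set
-/

set_option autoImplicit false

open Finset

namespace Pool.Agent.Lib.MP_64d474_lc.SubExp

variable {m : ℕ}

theorem side_spec (s : ℕ) : 1 ≤ side s ∧ s ≤ side s ^ 3 := Nat.find_spec (exists_side s)

theorem side_le (s : ℕ) (hs : 1 ≤ s) : side s ^ 3 ≤ 8 * s := by
  obtain ⟨h1, h2⟩ := side_spec s
  by_cases h : side s = 1
  · rw [h]
    omega
  · have h3 : side s - 1 < side s := by omega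
    have h4 := Nat.find_min (exists_side s) h3
    have h5 : ¬ s ≤ (side s - 1) ^ 3 := fun h5 => h4 ⟨by omega, h5⟩
    have h6 : side s ≤ 2 * (side s - 1) := by omega
    calc side s ^ 3 ≤ (2 * (side s - 1)) ^ 3 := Nat.pow_le_pow_left h6 3
      _ = 8 * (side s - 1) ^ 3 := by ring
      _ ≤ 8 * s := Nat.mul_le_mul_left 8 (by omega)

theorem side_le_succ (s : ℕ) : side s ≤ s + 1 :=
  Nat.find_min' (exists_side s) ⟨by omega, by
    calc s ≤ s + 1 := Nat.le_succ _
      _ = (s + 1) ^ 1 := (pow_one _).symm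
      _ ≤ (s + 1) ^ 3 := Nat.pow_le_pow_right (Nat.succ_pos _) (by norm_num)⟩

theorem nsrc_mul_le (s : ℕ) : nsrc (side s) * s + 1 ≤ (s + 2) ^ 6 := by
  have h1 := side_le_succ s
  have h2 : nsrc (side s) ≤ 5 * (s + 1) ^ 2 := by
    unfold nsrc
    have h3 : side s ^ 2 ≤ (s + 1) ^ 2 := Nat.pow_le_pow_left h1 2
    have h4 : s + 1 ≤ (s + 1) ^ 2 := by nlinarith
    omega
  have h5 : nsrc (side s) * s ≤ 5 * (s + 1) ^ 2 * s := Nat.mul_le_mul_right s h2
  have h6 : 5 * (s + 1) ^ 2 * s + 1 ≤ (s + 2) ^ 6 := by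
    have h7 : 8 ≤ (s + 2) ^ 3 := by
      calc 8 = 2 ^ 3 := by norm_num
        _ ≤ (s + 2) ^ 3 := Nat.pow_le_pow_left (by omega) 3
    have h8 : 5 * (s + 1) ^ 2 * s + 1 ≤ 8 * (s + 2) ^ 3 := by nlinarith [sq_nonneg s]
    calc 5 * (s + 1) ^ 2 * s + 1 ≤ 8 * (s + 2) ^ 3 := h8
      _ ≤ (s + 2) ^ 3 * (s + 2) ^ 3 := Nat.mul_le_mul_right _ h7
      _ = (s + 2) ^ 6 := by ring
  omega

theorem card_hits_le (a : Fin m → ℕ) :
    (hits a (side (∑ j, a j))).card ≤ (∑ j, a j + 2) ^ (19 * side (∑ j, a j) ^ 2) := by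
  classical
  set s := ∑ j, a j with hs
  set R := side s with hR
  obtain ⟨h1, h2⟩ := side_spec s
  rw [← hR] at h1 h2
  refine card_image_le.trans ?_
  rw [Fintype.card_piFinset]
  simp only [card_range]
  rw [Fintype.prod_sum_type, Fintype.prod_sum_type]
  simp only [bd, Sum.elim_inl, Sum.elim_inr, prod_const, card_univ, Fintype.card_fin]
  have e1 : s + 1 ≤ s + 2 := by omega
  have e2 := nsrc_mul_le s
  rw [← hR] at e2
  have e3 : nblk s R ≤ R ^ 2 + 1 := by
    unfold nblk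
    have : s / R ≤ R ^ 2 := by
      rw [Nat.div_le_iff_le_mul_add_pred (by omega)]
      have : R * R ^ 2 = R ^ 3 := by ring
      omega
    omega
  have hpos : 0 < s + 2 := by omega
  calc (s + 1) ^ nsrc R * ((nsrc R * s + 1) ^ nblk s R * (s + 1) ^ nblk s R)
      ≤ (s + 2) ^ nsrc R * (((s + 2) ^ 6) ^ nblk s R * (s + 2) ^ nblk s R) :=
        Nat.mul_le_mul (Nat.pow_le_pow_left e1 _)
          (Nat.mul_le_mul (Nat.pow_le_pow_left e2 _) (Nat.pow_le_pow_left e1 _))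
    _ = (s + 2) ^ (nsrc R + 7 * nblk s R) := by
        rw [← pow_mul, ← pow_add, ← pow_add]
        congr 1
        ring
    _ ≤ (s + 2) ^ (19 * R ^ 2) := by
        apply Nat.pow_le_pow_right hpos
        unfold nsrc
        have h3 : R ≤ R ^ 2 := by nlinarith
        omega

theorem hits_le (a : Fin m → ℕ) (h : Fin m → ℕ) (hh : h ∈ hits a (side (∑ j, a j))) (k : Fin m) :
    h k ≤ (2 ^ side (∑ j, a j) * (∑ j, a j + 2) ^ 6) ^ (6 * side (∑ j, a j) ^ 2) := by
  classical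
  set s := ∑ j, a j with hs
  set R := side s with hR
  obtain ⟨h1, h2⟩ := side_spec s
  rw [← hR] at h1 h2
  have e2 := nsrc_mul_le s
  rw [← hR] at e2
  unfold hits at hh
  rw [mem_image] at hh
  obtain ⟨v, hv, rfl⟩ := hh
  rw [Fintype.mem_piFinset] at hv
  have hv' : ∀ c, v c ≤ bd s R c := fun c => Nat.lt_succ_iff.1 (mem_range.1 (hv c))
  set Y := 2 ^ R * (s + 2) ^ 6 with hY
  have hY1 : 1 ≤ Y := Nat.mul_pos (by positivity) (by positivity)
  have hs1 : s ≤ (s + 2) ^ 6 := by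
    calc s ≤ s + 2 := by omega
      _ = (s + 2) ^ 1 := (pow_one _).symm
      _ ≤ (s + 2) ^ 6 := Nat.pow_le_pow_right (by omega) (by norm_num)
  have hYs : s ≤ Y := by
    calc s ≤ (s + 2) ^ 6 := hs1
      _ ≤ 2 ^ R * (s + 2) ^ 6 := Nat.le_mul_of_pos_left _ (by positivity)
  have hR2 : R ≤ R ^ 2 := by nlinarith
  unfold pt point
  split_ifs with hk
  · have hpos : off a k % R < R := Nat.mod_lt _ (by omega)
    have hterm : ∀ j : Fin (nsrc R), v (Sum.inl j) * (2 ^ (off a k % R) *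
        v (Sum.inr (Sum.inl (blk a R k)))) ^ ((j : ℕ) + 1) ≤ s * Y ^ nsrc R := by
      intro j
      have f1 := hv' (Sum.inl j)
      have f2 := hv' (Sum.inr (Sum.inl (blk a R k)))
      simp only [bd, Sum.elim_inl, Sum.elim_inr] at f1 f2
      refine Nat.mul_le_mul f1 ?_
      have f3 : 2 ^ (off a k % R) * v (Sum.inr (Sum.inl (blk a R k))) ≤ Y :=
        Nat.mul_le_mul (Nat.pow_le_pow_right (by norm_num) hpos.le) (f2.trans (by omega))
      exact (Nat.pow_le_pow_left f3 _).trans (Nat.pow_le_pow_right hY1 j.2)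
    calc _ ≤ ∑ _j : Fin (nsrc R), s * Y ^ nsrc R := sum_le_sum fun j _ => hterm j
      _ = nsrc R * s * Y ^ nsrc R := by
          rw [sum_const, card_univ, Fintype.card_fin, smul_eq_mul, mul_assoc]
      _ ≤ Y * Y ^ nsrc R := by
          apply Nat.mul_le_mul_right
          calc nsrc R * s ≤ (s + 2) ^ 6 := by omega
            _ ≤ 2 ^ R * (s + 2) ^ 6 := Nat.le_mul_of_pos_left _ (by positivity)
      _ = Y ^ (nsrc R + 1) := by ring
      _ ≤ Y ^ (6 * R ^ 2) := by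
          apply Nat.pow_le_pow_right hY1
          unfold nsrc
          omega
  · have f1 := hv' (Sum.inr (Sum.inr (blk a R k)))
    simp only [bd, Sum.elim_inr] at f1
    calc _ ≤ s := f1
      _ ≤ Y := hYs
      _ = Y ^ 1 := (pow_one _).symm
      _ ≤ Y ^ (6 * R ^ 2) := Nat.pow_le_pow_right hY1 (by nlinarith)

theorem cast_pt {F : Type*} [Semiring F] (a : Fin m → ℕ) (R : ℕ) (v : Par (∑ j, a j) R → ℕ)
    (k : Fin m) : ((pt a R v k : ℕ) : F) = pt a R (fun c => (v c : F)) k := by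
  unfold pt point
  split_ifs
  · push_cast
    rfl
  · rfl

end Pool.Agent.Lib.MP_64d474_lc.SubExp
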