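import Pool.Agent.Lib.MP_64d474_lc.SubExp.Hybrid

/-!
# Integer values of the parameters
-/

set_option autoImplicit false

namespace Pool.Agent.Lib.MP_64d474_lc.SubExp

open Finset Polynomial

theorem natDegree_det_le {F : Type*} [CommRing F] {ι : Type*} [Fintype ι] [DecidableEq ι]
    (M : Matrix ι ι F[X]) (d : ι → ℕ) (h : ∀ i j, (M i j).natDegree ≤ d i) :
    M.det.natDegree ≤ ∑ i, d i := by
  rw [Matrix.det_apply]
  refine natDegree_sum_le_of_forall_le _ _ fun σ _ => ?_
  refine (natDegree_smul_le _ _).trans ?_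
  refine (natDegree_prod_le _ _).trans ?_
  refine (sum_le_sum fun i _ => h (σ i) i).trans ?_
  rw [Equiv.sum_comp σ d]

variable {m : ℕ} {F : Type*} [Field F] [CharZero F] {n : Type*} [Fintype n] [DecidableEq n]

/-- a value of a parameter of a nonsingular matrix may be replaced by a small number -/
theorem exists_nat_le (r : Fin m → ℕ) (B₀ : Matrix n n F)
    (B : Fin m → Matrix n n F) (U : ∀ k, Matrix n (Fin (r k)) F)
    (V : ∀ k, Matrix (Fin (r k)) n F) (hB : ∀ k, B k = U k * V k) (p : Fin m → F[X]) (d : ℕ)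
    (hp : ∀ k, (p k).natDegree ≤ d) (ζ : F)
    (h : (B₀ + ∑ k, (p k).eval ζ • B k).det ≠ 0) :
    ∃ j : ℕ, j ≤ d * ∑ k, r k ∧ (B₀ + ∑ k, (p k).eval (j : F) • B k).det ≠ 0 := by
  classical
  set Q : F[X] := (B₀.map C + ∑ k, p k • (B k).map C).det with hQ
  have hev : ∀ ξ : F, Q.eval ξ = (B₀ + ∑ k, (p k).eval ξ • B k).det := by
    intro ξ
    rw [hQ, ← coe_evalRingHom, RingHom.map_det]
    congr 1
    ext i j
    simp [Matrix.sum_apply, eval_finsetSum]
  have hQ0 : Q ≠ 0 := by
    intro h0
    apply h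
    rw [← hev, h0, eval_zero]
  have hdeg : Q.natDegree ≤ d * ∑ k, r k := by
    set U' : Matrix n ((k : Fin m) × Fin (r k)) F[X] := Matrix.of fun i q => C (U q.1 i q.2)
    set V' : Matrix ((k : Fin m) × Fin (r k)) n F[X] :=
      Matrix.of fun q i => p q.1 * C (V q.1 q.2 i)
    have e1 : B₀.map C + ∑ k, p k • (B k).map C = B₀.map C - (-U') * V' := by
      rw [Matrix.neg_mul, sub_neg_eq_add]
      congr 1
      ext1 i j
      rw [Matrix.sum_apply, Matrix.mul_apply, Fintype.sum_sigma]
      refine sum_congr rfl fun k _ => ?_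
      rw [Matrix.smul_apply, Matrix.map_apply, hB k, Matrix.mul_apply, map_sum, smul_eq_mul,
        mul_sum]
      refine sum_congr rfl fun l _ => ?_
      simp only [U', V', Matrix.of_apply, map_mul]
      ring
    have e2 : Q = (Matrix.fromBlocks (B₀.map C) (-U') V' 1).det := by
      rw [hQ, e1, Matrix.det_fromBlocks_one₂₂]
    rw [e2]
    refine (natDegree_det_le _ (Sum.elim (fun _ => 0) (fun _ => d)) ?_).trans ?_
    · rintro (i | q) (j | q')
      · simp
      · simp [U']
      · simp only [Matrix.fromBlocks_apply₂₁, Sum.elim_inr, V', Matrix.of_apply]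
        refine natDegree_mul_le.trans ?_
        rw [natDegree_C, add_zero]
        exact hp _
      · simp only [Matrix.fromBlocks_apply₂₂, Sum.elim_inr, Matrix.one_apply]
        split_ifs
        · simp
        · simp
    · rw [Fintype.sum_sum_type]
      simp only [Sum.elim_inl, Sum.elim_inr, sum_const_zero, zero_add, sum_const, card_univ,
        smul_eq_mul, Fintype.card_sigma, Fintype.card_fin]
      rw [mul_comm]
  by_contra hcon
  push Not at hcon
  apply hQ0
  refine Polynomial.eq_zero_of_natDegree_lt_card_of_eval_eq_zero' Q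
    ((range (d * ∑ k, r k + 1)).image (fun j : ℕ => (j : F))) ?_ ?_
  · intro ξ hξ
    rw [mem_image] at hξ
    obtain ⟨j, hj, rfl⟩ := hξ
    rw [hev]
    exact hcon j (Nat.lt_succ_iff.1 (mem_range.1 hj))
  · rw [card_image_of_injective _ Nat.cast_injective, card_range]
    omega

theorem natDegree_point_le (r : Fin m → ℕ) (R : ℕ) (z : Fin (nsrc R) → F[X])
    (y w : Fin (nblk (∑ j, r j) R) → F[X]) (dz dy dw : ℕ) (hz : ∀ j, (z j).natDegree ≤ dz)
    (hy : ∀ j, (y j).natDegree ≤ dy) (hw : ∀ j, (w j).natDegree ≤ dw) (k : Fin m) :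
    (point r R z y w k).natDegree ≤ max (dz + nsrc R * dy) dw := by
  unfold point
  split_ifs with h
  · refine le_trans ?_ (le_max_left _ _)
    refine natDegree_sum_le_of_forall_le _ _ fun j _ => ?_
    refine natDegree_mul_le.trans (add_le_add (hz j) ?_)
    refine natDegree_pow_le.trans ?_
    refine Nat.mul_le_mul (Nat.succ_le_of_lt j.2) ?_
    refine natDegree_mul_le.trans ?_
    have h1 : ((2 : F[X]) ^ (off r k % R)).natDegree = 0 := by
      have : (2 : F[X]) ^ (off r k % R) = C ((2 : F) ^ (off r k % R)) := by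
        rw [map_pow, map_ofNat]
      rw [this, natDegree_C]
    rw [h1, zero_add]
    exact hy _
  · exact (hw _).trans (le_max_right _ _)

theorem eval_point (r : Fin m → ℕ) (R : ℕ) (z : Fin (nsrc R) → F[X])
    (y w : Fin (nblk (∑ j, r j) R) → F[X]) (ζ : F) (k : Fin m) :
    (point r R z y w k).eval ζ = point r R (fun j => (z j).eval ζ) (fun j => (y j).eval ζ)
      (fun j => (w j).eval ζ) k := by
  unfold point
  split_ifs with h
  · rw [eval_finsetSum]
    refine sum_congr rfl fun j _ => ?_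
    rw [eval_mul, eval_pow, eval_mul, eval_pow, eval_ofNat]
  · rfl

/-- one parameter -/
theorem one_par (r : Fin m → ℕ) (R : ℕ) (B₀ : Matrix n n F)
    (B : Fin m → Matrix n n F) (U : ∀ k, Matrix n (Fin (r k)) F)
    (V : ∀ k, Matrix (Fin (r k)) n F) (hB : ∀ k, B k = U k * V k)
    (v : Par (∑ j, r j) R → F) (c : Par (∑ j, r j) R)
    (h : (B₀ + ∑ k, pt r R v k • B k).det ≠ 0) :
    ∃ j : ℕ, j ≤ bd (∑ j, r j) R c ∧
      (B₀ + ∑ k, pt r R (Function.update v c (j : F)) k • B k).det ≠ 0 := by
  classical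
  set P : Par (∑ j, r j) R → F[X] := Function.update (fun c => C (v c)) c X with hP
  have hPe : ∀ (ζ : F) (c' : Par (∑ j, r j) R), (P c').eval ζ = Function.update v c ζ c' := by
    intro ζ c'
    by_cases hc : c' = c
    · subst hc
      rw [hP, Function.update_self, Function.update_self, eval_X]
    · rw [hP, Function.update_of_ne hc, Function.update_of_ne hc, eval_C]
  have hev : ∀ (ζ : F) (k : Fin m), (pt r R P k).eval ζ = pt r R (Function.update v c ζ) k := by
    intro ζ k
    unfold pt
    rw [eval_point]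
    simp only [hPe]
  have hP0 : ∀ c', c' ≠ c → (P c').natDegree ≤ 0 := by
    intro c' hc
    rw [hP, Function.update_of_ne hc, natDegree_C]
  have hP1 : ∀ c', (P c').natDegree ≤ 1 := by
    intro c'
    by_cases hc : c' = c
    · subst hc
      rw [hP, Function.update_self, natDegree_X]
    · exact (hP0 c' hc).trans zero_le_one
  have h' : (B₀ + ∑ k, (pt r R P k).eval (v c) • B k).det ≠ 0 := by
    simp only [hev, Function.update_eq_self]
    exact h
  have hmain : ∀ d : ℕ, (∀ k, (pt r R P k).natDegree ≤ d) →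
      d * ∑ j, r j ≤ bd (∑ j, r j) R c → ∃ j : ℕ, j ≤ bd (∑ j, r j) R c ∧
      (B₀ + ∑ k, pt r R (Function.update v c (j : F)) k • B k).det ≠ 0 := by
    intro d hd hle
    obtain ⟨j, hj, hdet⟩ := exists_nat_le r B₀ B U V hB (pt r R P) d hd (v c) h'
    refine ⟨j, hj.trans hle, ?_⟩
    simpa only [hev] using hdet
  rcases c with c | c | c
  · refine hmain 1 (fun k => ?_) (by simp [bd])
    refine (natDegree_point_le r R _ _ _ 1 0 0 (fun j => hP1 _) (fun j => hP0 _ (by simp))
      (fun j => hP0 _ (by simp)) k).trans (by simp)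
  · refine hmain (nsrc R) (fun k => ?_) (by simp [bd])
    refine (natDegree_point_le r R _ _ _ 0 1 0 (fun j => hP0 _ (by simp)) (fun j => hP1 _)
      (fun j => hP0 _ (by simp)) k).trans (by simp)
  · refine hmain 1 (fun k => ?_) (by simp [bd])
    refine (natDegree_point_le r R _ _ _ 0 0 1 (fun j => hP0 _ (by simp))
      (fun j => hP0 _ (by simp)) (fun j => hP1 _) k).trans (by simp)

/-- all parameters -/
theorem all_par (r : Fin m → ℕ) (R : ℕ) (B₀ : Matrix n n F)
    (B : Fin m → Matrix n n F) (U : ∀ k, Matrix n (Fin (r k)) F)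
    (V : ∀ k, Matrix (Fin (r k)) n F) (hB : ∀ k, B k = U k * V k)
    (v : Par (∑ j, r j) R → F) (h : (B₀ + ∑ k, pt r R v k • B k).det ≠ 0) :
    ∃ v' : Par (∑ j, r j) R → ℕ, (∀ c, v' c ≤ bd (∑ j, r j) R c) ∧
      (B₀ + ∑ k, pt r R (fun c => (v' c : F)) k • B k).det ≠ 0 := by
  classical
  have key : ∀ S : Finset (Par (∑ j, r j) R), ∃ v : Par (∑ j, r j) R → F,
      (B₀ + ∑ k, pt r R v k • B k).det ≠ 0 ∧
      ∀ c ∈ S, ∃ j : ℕ, j ≤ bd (∑ j, r j) R c ∧ v c = (j : F) := by
    intro S
    induction S using Finset.induction_on with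
    | empty => exact ⟨v, h, fun c hc => absurd hc (notMem_empty c)⟩
    | insert c S hc ih =>
      obtain ⟨v, hv, hS⟩ := ih
      obtain ⟨j, hj, hdet⟩ := one_par r R B₀ B U V hB v c hv
      refine ⟨Function.update v c (j : F), hdet, fun c' hc' => ?_⟩
      by_cases hcc : c' = c
      · subst hcc
        exact ⟨j, hj, Function.update_self _ _ _⟩
      · rw [Function.update_of_ne hcc]
        exact hS c' (mem_of_mem_insert_of_ne hc' hcc)
  obtain ⟨v, hv, hS⟩ := key univ
  choose v' hv' using fun c => hS c (mem_univ c)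
  refine ⟨v', fun c => (hv' c).1, ?_⟩
  have : (fun c => (v' c : F)) = v := by
    funext c
    exact (hv' c).2.symm
  rw [this]
  exact hv

end Pool.Agent.Lib.MP_64d474_lc.SubExp
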