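import Pool.Agent.Lib.MP_64d474_lc.SubExp.Step
import Pool.Agent.Lib.MP_64d474_lc.SubExp.Defs

/-!
# Replacing the variables block by block
-/

set_option autoImplicit false

namespace Pool.Agent.Lib.MP_64d474_lc.SubExp

open Finset

section

variable {m : ℕ}

theorem off_add_le (r : Fin m → ℕ) {k k' : Fin m} (h : k < k') : off r k + r k ≤ off r k' := by
  unfold off
  have h1 : insert k (univ.filter (· < k)) ⊆ univ.filter (· < k') := by
    intro j hj
    rw [mem_insert, mem_filter] at hj
    rw [mem_filter]
    rcases hj with rfl | hj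
    · exact ⟨mem_univ _, h⟩
    · exact ⟨mem_univ _, hj.2.trans h⟩
  have h2 := sum_le_sum_of_subset (f := r) h1
  rw [sum_insert (by simp)] at h2
  omega

theorem off_lt_of_lt (r : Fin m → ℕ) {k k' : Fin m} (h : off r k = off r k') (h1 : r k ≠ 0)
    (h2 : r k' ≠ 0) : k = k' := by
  by_contra hne
  rcases lt_or_gt_of_ne hne with hlt | hlt
  · have := off_add_le r hlt
    omega
  · have := off_add_le r hlt
    omega

theorem blk_inj_big (r : Fin m → ℕ) {R : ℕ} (hR : 0 < R) {k k' : Fin m} (h1 : R < r k)
    (h2 : R < r k') (h : blk r R k = blk r R k') : k = k' := by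
  by_contra hne
  have key : ∀ k k' : Fin m, k < k' → R < r k → blk r R k ≠ blk r R k' := by
    intro k k' hlt h1 h
    have h3 := off_add_le r hlt
    have h4 : off r k / R = off r k' / R := congrArg Fin.val h
    have h5 : off r k / R + 1 ≤ off r k' / R := by
      rw [Nat.le_div_iff_mul_le hR, add_mul, one_mul]
      have := Nat.div_mul_le_self (off r k) R
      omega
    omega
  rcases lt_or_gt_of_ne hne with hlt | hlt
  · exact key k k' hlt h1 h
  · exact key k' k hlt h2 h.symm

/-- the small variables of block `i` -/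
abbrev Blk (r : Fin m → ℕ) (R : ℕ) (i : ℕ) : Type :=
  (k : {k : Fin m // r k ≤ R ∧ (blk r R k : ℕ) = i}) × Fin (r k)

theorem card_Blk_le (r : Fin m → ℕ) {R : ℕ} (hR : 0 < R) (i : ℕ) :
    Fintype.card (Blk r R i) ≤ 2 * R := by
  have hlt : ∀ p : Blk r R i, off r p.1 + (p.2 : ℕ) - i * R < 2 * R ∧
      i * R ≤ off r p.1 + (p.2 : ℕ) := by
    rintro ⟨⟨k, h1, h2⟩, j⟩
    have h3 : off r k / R = i := h2
    have h4 := Nat.div_add_mod (off r k) R
    have h5 := Nat.mod_lt (off r k) hR
    have h6 := j.2
    rw [h3] at h4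
    have h7 : R * i = i * R := Nat.mul_comm _ _
    dsimp only at *
    omega
  rw [← Fintype.card_fin (2 * R)]
  refine Fintype.card_le_of_injective
    (fun p : Blk r R i => (⟨off r p.1 + (p.2 : ℕ) - i * R, (hlt p).1⟩ : Fin (2 * R))) ?_
  intro p q hpq
  have h1 := (hlt p).2
  have h2 := (hlt q).2
  have h3 : off r p.1 + (p.2 : ℕ) - i * R = off r q.1 + (q.2 : ℕ) - i * R :=
    congrArg Fin.val hpq
  have h4 : off r p.1 + (p.2 : ℕ) = off r q.1 + (q.2 : ℕ) := by omega
  obtain ⟨⟨k, hk⟩, j⟩ := p
  obtain ⟨⟨k', hk'⟩, j'⟩ := q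
  dsimp only at h4
  have hkk : k = k' := by
    by_contra hne
    rcases lt_or_gt_of_ne hne with hlt | hlt
    · have h5 := off_add_le r hlt
      have := j.2
      dsimp only at this
      omega
    · have h5 := off_add_le r hlt
      have := j'.2
      dsimp only at this
      omega
  subst hkk
  have : j = j' := Fin.ext (by omega)
  subst this
  rfl

variable {F : Type*} [Field F] [CharZero F] {n : Type*} [Fintype n] [DecidableEq n]

theorem hybrid (r : Fin m → ℕ) {R : ℕ} (hR : 0 < R) (B₀ : Matrix n n F)
    (B : Fin m → Matrix n n F) (U : ∀ k, Matrix n (Fin (r k)) F)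
    (V : ∀ k, Matrix (Fin (r k)) n F) (hB : ∀ k, B k = U k * V k) (x : Fin m → F)
    (h : (B₀ + ∑ k, x k • B k).det ≠ 0) :
    ∃ (z : Fin (nsrc R) → F) (y w : Fin (nblk (∑ j, r j) R) → F),
      (B₀ + ∑ k, point r R z y w k • B k).det ≠ 0 := by
  have hB0 : ∀ k, r k = 0 → B k = 0 := by
    intro k hk
    rw [hB k]
    ext i j
    rw [Matrix.mul_apply, Matrix.zero_apply]
    haveI : IsEmpty (Fin (r k)) := by rw [hk]; infer_instance
    exact Finset.sum_eq_zero fun a _ => isEmptyElim a
  -- blocks below `i` are replaced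
  have key : ∀ i : ℕ, ∃ (z : Fin (nsrc R) → F) (y : Fin (nblk (∑ j, r j) R) → F) (x : Fin m → F),
      (B₀ + ∑ k, (if r k ≤ R ∧ (blk r R k : ℕ) < i then xval z (off r k % R) (y (blk r R k))
        else x k) • B k).det ≠ 0 := by
    intro i
    induction i with
    | zero =>
      refine ⟨0, 0, x, ?_⟩
      simpa using h
    | succ i ih =>
      obtain ⟨z, y, x, hx⟩ := ih
      by_cases hi : i < nblk (∑ j, r j) R
      swap
      · refine ⟨z, y, x, ?_⟩
        convert hx using 6 with k
        have := (blk r R k).2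
        constructor
        · rintro ⟨h1, h2⟩
          exact ⟨h1, by omega⟩
        · rintro ⟨h1, h2⟩
          exact ⟨h1, by omega⟩
      classical
      -- the pieces
      set C₀ : Matrix n n F := B₀ + ∑ k ∈ univ.filter (fun k : Fin m =>
        ¬ (r k ≤ R ∧ (blk r R k : ℕ) < i) ∧ ¬ (r k ≤ R ∧ (blk r R k : ℕ) = i)), x k • B k with hC₀
      set Cj : Fin (nsrc R) → Matrix n n F := fun j => ∑ k ∈ univ.filter (fun k : Fin m =>
        r k ≤ R ∧ (blk r R k : ℕ) < i),
          (((2 : F) ^ (off r k % R) * y (blk r R k)) ^ ((j : ℕ) + 1)) • B k with hCj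
      set A : Fin R → Matrix n n F := fun a => ∑ k ∈ univ.filter (fun k : Fin m =>
        (r k ≤ R ∧ (blk r R k : ℕ) = i) ∧ off r k % R = (a : ℕ)), B k with hA
      -- sums
      have hsplit : ∀ f : Fin m → Matrix n n F, ∑ k, f k =
          ∑ k ∈ univ.filter (fun k : Fin m => ¬ (r k ≤ R ∧ (blk r R k : ℕ) < i) ∧
            ¬ (r k ≤ R ∧ (blk r R k : ℕ) = i)), f k +
          ∑ k ∈ univ.filter (fun k : Fin m => r k ≤ R ∧ (blk r R k : ℕ) < i), f k +
          ∑ k ∈ univ.filter (fun k : Fin m => r k ≤ R ∧ (blk r R k : ℕ) = i), f k := by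
        intro f
        rw [sum_filter, sum_filter, sum_filter, ← sum_add_distrib, ← sum_add_distrib]
        refine sum_congr rfl fun k _ => ?_
        by_cases h1 : r k ≤ R ∧ (blk r R k : ℕ) < i
        · have h2 : ¬ (r k ≤ R ∧ (blk r R k : ℕ) = i) := fun h => by omega
          rw [if_neg (fun h => h.1 h1), if_pos h1, if_neg h2, zero_add, add_zero]
        · by_cases h2 : r k ≤ R ∧ (blk r R k : ℕ) = i
          · rw [if_neg (fun h => h.2 h2), if_neg h1, if_pos h2, zero_add, zero_add]
          · rw [if_pos ⟨h1, h2⟩, if_neg h1, if_neg h2, add_zero, add_zero]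
      have hsum2 : ∀ z : Fin (nsrc R) → F, ∑ j, z j • Cj j =
          ∑ k ∈ univ.filter (fun k : Fin m => r k ≤ R ∧ (blk r R k : ℕ) < i),
            xval z (off r k % R) (y (blk r R k)) • B k := by
        intro z
        rw [hCj]
        simp only [smul_sum]
        rw [sum_comm]
        refine sum_congr rfl fun k _ => ?_
        rw [xval, sum_smul]
        exact sum_congr rfl fun j _ => by rw [smul_smul]
      have hsum3 : ∀ x' : Fin R → F, ∑ a, x' a • A a =
          ∑ k ∈ univ.filter (fun k : Fin m => r k ≤ R ∧ (blk r R k : ℕ) = i),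
            x' ⟨off r k % R, Nat.mod_lt _ hR⟩ • B k := by
        intro x'
        rw [hA]
        simp only [smul_sum]
        simp only [sum_filter]
        rw [sum_comm]
        refine sum_congr rfl fun k _ => ?_
        by_cases h1 : r k ≤ R ∧ (blk r R k : ℕ) = i
        · rw [if_pos h1, sum_eq_single (⟨off r k % R, Nat.mod_lt _ hR⟩ : Fin R)]
          · rw [if_pos ⟨h1, rfl⟩]
          · intro a _ ha
            rw [if_neg]
            rintro ⟨_, h2⟩
            exact ha (Fin.ext h2.symm)
          · intro h2
            exact absurd (mem_univ _) h2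
        · rw [if_neg h1]
          refine sum_eq_zero fun a _ => ?_
          rw [if_neg]
          exact fun h2 => h1 h2.1
      -- the old values as values of the positions
      have hx' : ∃ x' : Fin R → F, ∀ k, (r k ≤ R ∧ (blk r R k : ℕ) = i) →
          x' ⟨off r k % R, Nat.mod_lt _ hR⟩ • B k = x k • B k := by
        have hex : ∀ a : Fin R, ∃ v : F, ∀ k, (r k ≤ R ∧ (blk r R k : ℕ) = i) →
            off r k % R = (a : ℕ) → v • B k = x k • B k := by
          intro a
          by_cases hex : ∃ k, (r k ≤ R ∧ (blk r R k : ℕ) = i) ∧ off r k % R = (a : ℕ) ∧ r k ≠ 0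
          · obtain ⟨k₀, hk₀, hm₀, hr₀⟩ := hex
            refine ⟨x k₀, fun k hk hm => ?_⟩
            by_cases h0 : r k = 0
            · rw [hB0 k h0, smul_zero, smul_zero]
            · have h1 : off r k₀ = off r k := by
                have e1 := Nat.div_add_mod (off r k₀) R
                have e2 := Nat.div_add_mod (off r k) R
                have e3 : off r k₀ / R = i := hk₀.2
                have e4 : off r k / R = i := hk.2
                rw [e3, hm₀] at e1
                rw [e4, hm] at e2
                exact e1.symm.trans e2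
              rw [off_lt_of_lt r h1 hr₀ h0]
          · refine ⟨0, fun k hk hm => ?_⟩
            have h0 : r k = 0 := by
              by_contra h0
              exact hex ⟨k, hk, hm, h0⟩
            rw [hB0 k h0, smul_zero, smul_zero]
        choose x' hx' using hex
        exact ⟨x', fun k hk => hx' _ k hk rfl⟩
      obtain ⟨x', hx'⟩ := hx'
      -- apply the step
      have hdet : (C₀ + ∑ j, z j • Cj j + ∑ a, x' a • A a).det ≠ 0 := by
        rw [hsum2, hsum3]
        have e1 : ∑ k ∈ univ.filter (fun k : Fin m => r k ≤ R ∧ (blk r R k : ℕ) = i),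
            x' ⟨off r k % R, Nat.mod_lt _ hR⟩ • B k =
            ∑ k ∈ univ.filter (fun k : Fin m => r k ≤ R ∧ (blk r R k : ℕ) = i), x k • B k :=
          sum_congr rfl fun k hk => hx' k (mem_filter.1 hk).2
        rw [e1]
        have e2 := hsplit (fun k => (if r k ≤ R ∧ (blk r R k : ℕ) < i then
          xval z (off r k % R) (y (blk r R k)) else x k) • B k)
        have e3 : B₀ + ∑ k, (if r k ≤ R ∧ (blk r R k : ℕ) < i then
            xval z (off r k % R) (y (blk r R k)) else x k) • B k =
            C₀ + ∑ k ∈ univ.filter (fun k : Fin m => r k ≤ R ∧ (blk r R k : ℕ) < i),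
              xval z (off r k % R) (y (blk r R k)) • B k +
            ∑ k ∈ univ.filter (fun k : Fin m => r k ≤ R ∧ (blk r R k : ℕ) = i), x k • B k := by
          rw [e2, hC₀]
          have f1 : ∑ k ∈ univ.filter (fun k : Fin m => ¬ (r k ≤ R ∧ (blk r R k : ℕ) < i) ∧
              ¬ (r k ≤ R ∧ (blk r R k : ℕ) = i)), (if r k ≤ R ∧ (blk r R k : ℕ) < i then
              xval z (off r k % R) (y (blk r R k)) else x k) • B k =
              ∑ k ∈ univ.filter (fun k : Fin m => ¬ (r k ≤ R ∧ (blk r R k : ℕ) < i) ∧
              ¬ (r k ≤ R ∧ (blk r R k : ℕ) = i)), x k • B k :=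
            sum_congr rfl fun k hk => by rw [if_neg (mem_filter.1 hk).2.1]
          have f2 : ∑ k ∈ univ.filter (fun k : Fin m => r k ≤ R ∧ (blk r R k : ℕ) < i),
              (if r k ≤ R ∧ (blk r R k : ℕ) < i then
              xval z (off r k % R) (y (blk r R k)) else x k) • B k =
              ∑ k ∈ univ.filter (fun k : Fin m => r k ≤ R ∧ (blk r R k : ℕ) < i),
              xval z (off r k % R) (y (blk r R k)) • B k :=
            sum_congr rfl fun k hk => by rw [if_pos (mem_filter.1 hk).2]
          have f3 : ∑ k ∈ univ.filter (fun k : Fin m => r k ≤ R ∧ (blk r R k : ℕ) = i),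
              (if r k ≤ R ∧ (blk r R k : ℕ) < i then
              xval z (off r k % R) (y (blk r R k)) else x k) • B k =
              ∑ k ∈ univ.filter (fun k : Fin m => r k ≤ R ∧ (blk r R k : ℕ) = i), x k • B k :=
            sum_congr rfl fun k hk => by
              have := (mem_filter.1 hk).2
              rw [if_neg (by omega)]
          rw [f1, f2, f3]
          abel
        rw [← e3]
        exact hx
      have hfac : ∀ a, A a = (Matrix.of fun (p : n) (q : Blk r R i) => U q.1 p q.2) *
          (Matrix.diagonal fun q : Blk r R i => if off r q.1 % R = (a : ℕ) then (1 : F) else 0) *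
          (Matrix.of fun (q : Blk r R i) (p : n) => V q.1 q.2 p) := by
        intro a
        ext p p'
        rw [Matrix.mul_apply]
        simp only [Matrix.mul_diagonal, Matrix.of_apply]
        rw [Fintype.sum_sigma]
        rw [hA]
        dsimp only
        rw [Matrix.sum_apply]
        have e1 : ∑ k ∈ univ.filter (fun k : Fin m => (r k ≤ R ∧ (blk r R k : ℕ) = i) ∧
            off r k % R = (a : ℕ)), B k p p' =
            ∑ k : {k : Fin m // r k ≤ R ∧ (blk r R k : ℕ) = i},
              if off r k % R = (a : ℕ) then B k p p' else 0 := by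
          rw [← filter_filter, sum_filter]
          exact Finset.sum_subtype _ (fun k => by simp) _
        rw [e1]
        refine sum_congr rfl fun k _ => ?_
        by_cases h1 : off r k % R = (a : ℕ)
        · rw [if_pos h1, hB k, Matrix.mul_apply]
          refine sum_congr rfl fun j _ => ?_
          simp [h1]
        · rw [if_neg h1]
          symm
          refine sum_eq_zero fun j _ => ?_
          simp [h1]
      have hcard : Fintype.card (Blk r R i) * Fintype.card (Blk r R i) + R ≤ nsrc R := by
        have h1 := card_Blk_le r hR i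
        have h2 := Nat.mul_le_mul h1 h1
        have h3 : 2 * R * (2 * R) = 4 * R ^ 2 := by ring
        unfold nsrc
        omega
      obtain ⟨z', y', hzy⟩ := step C₀ Cj A _ _ _ hfac hcard z x' hdet
      refine ⟨z', Function.update y ⟨i, hi⟩ y', x, ?_⟩
      rw [hsum2, hsum3 (fun a => xval z' a y')] at hzy
      have e2 := hsplit (fun k => (if r k ≤ R ∧ (blk r R k : ℕ) < i + 1 then
        xval z' (off r k % R) (Function.update y ⟨i, hi⟩ y' (blk r R k)) else x k) • B k)
      have e3 : B₀ + ∑ k, (if r k ≤ R ∧ (blk r R k : ℕ) < i + 1 then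
          xval z' (off r k % R) (Function.update y ⟨i, hi⟩ y' (blk r R k)) else x k) • B k =
          C₀ + ∑ k ∈ univ.filter (fun k : Fin m => r k ≤ R ∧ (blk r R k : ℕ) < i),
            xval z' (off r k % R) (y (blk r R k)) • B k +
          ∑ k ∈ univ.filter (fun k : Fin m => r k ≤ R ∧ (blk r R k : ℕ) = i),
            xval z' (off r k % R) y' • B k := by
        rw [e2, hC₀]
        have f1 : ∑ k ∈ univ.filter (fun k : Fin m => ¬ (r k ≤ R ∧ (blk r R k : ℕ) < i) ∧
            ¬ (r k ≤ R ∧ (blk r R k : ℕ) = i)), (if r k ≤ R ∧ (blk r R k : ℕ) < i + 1 then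
            xval z' (off r k % R) (Function.update y ⟨i, hi⟩ y' (blk r R k)) else x k) • B k =
            ∑ k ∈ univ.filter (fun k : Fin m => ¬ (r k ≤ R ∧ (blk r R k : ℕ) < i) ∧
            ¬ (r k ≤ R ∧ (blk r R k : ℕ) = i)), x k • B k :=
          sum_congr rfl fun k hk => by
            have := (mem_filter.1 hk).2
            rw [if_neg (by omega)]
        have f2 : ∑ k ∈ univ.filter (fun k : Fin m => r k ≤ R ∧ (blk r R k : ℕ) < i),
            (if r k ≤ R ∧ (blk r R k : ℕ) < i + 1 then
            xval z' (off r k % R) (Function.update y ⟨i, hi⟩ y' (blk r R k)) else x k) • B k =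
            ∑ k ∈ univ.filter (fun k : Fin m => r k ≤ R ∧ (blk r R k : ℕ) < i),
            xval z' (off r k % R) (y (blk r R k)) • B k :=
          sum_congr rfl fun k hk => by
            have h1 := (mem_filter.1 hk).2
            have h2 : blk r R k ≠ ⟨i, hi⟩ := by
              intro h3
              have h4 : (blk r R k : ℕ) = i := congrArg Fin.val h3
              omega
            rw [if_pos (by omega), Function.update_of_ne h2]
        have f3 : ∑ k ∈ univ.filter (fun k : Fin m => r k ≤ R ∧ (blk r R k : ℕ) = i),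
            (if r k ≤ R ∧ (blk r R k : ℕ) < i + 1 then
            xval z' (off r k % R) (Function.update y ⟨i, hi⟩ y' (blk r R k)) else x k) • B k =
            ∑ k ∈ univ.filter (fun k : Fin m => r k ≤ R ∧ (blk r R k : ℕ) = i),
            xval z' (off r k % R) y' • B k :=
          sum_congr rfl fun k hk => by
            have h1 := (mem_filter.1 hk).2
            have h2 : blk r R k = ⟨i, hi⟩ := Fin.ext h1.2
            rw [if_pos (by omega), h2, Function.update_self]
        rw [f1, f2, f3]
        abel
      rw [e3]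
      exact hzy
  obtain ⟨z, y, x, hx⟩ := key (nblk (∑ j, r j) R)
  classical
  have hw : ∀ i : Fin (nblk (∑ j, r j) R), ∃ v : F, ∀ k, R < r k → blk r R k = i → v = x k := by
    intro i
    by_cases hex : ∃ k, R < r k ∧ blk r R k = i
    · obtain ⟨k₀, h0, h1⟩ := hex
      refine ⟨x k₀, fun k hk hk2 => ?_⟩
      rw [blk_inj_big r hR h0 hk (h1.trans hk2.symm)]
    · refine ⟨0, fun k hk hk2 => ?_⟩
      exact absurd ⟨k, hk, hk2⟩ hex
  choose w hw using hw
  refine ⟨z, y, w, ?_⟩
  have e : ∀ k, point r R z y w k = if r k ≤ R ∧ (blk r R k : ℕ) < nblk (∑ j, r j) R then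
      xval z (off r k % R) (y (blk r R k)) else x k := by
    intro k
    have h1 := (blk r R k).2
    by_cases h2 : r k ≤ R
    · rw [if_pos ⟨h2, h1⟩, point, if_pos h2]
      rfl
    · rw [if_neg (fun h => h2 h.1), point, if_neg h2]
      exact hw _ k (not_le.1 h2) rfl
  simp only [e]
  exact hx

end

end Pool.Agent.Lib.MP_64d474_lc.SubExp
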