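import Mathlib

/-!
# First-order invariance of a determinant
-/

set_option autoImplicit false

namespace Pool.Agent.Lib.MP_64d474_lc.SubExp

open Matrix

/-- If `e² = 0` and `V M⁻¹ C M⁻¹ U = 0` then `det (M + e C + U X V)` is
`det (1 + e M⁻¹ C) * det (M + U X V)`. -/
theorem det_dual {R : Type*} [CommRing R] {n ρ ρ' : Type*} [Fintype n] [DecidableEq n]
    [Fintype ρ] [DecidableEq ρ] [Fintype ρ'] [DecidableEq ρ'] (e : R) (he : e * e = 0)
    (M Mi C : Matrix n n R) (hM : M * Mi = 1) (U : Matrix n ρ R)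
    (V : Matrix ρ' n R) (X : Matrix ρ ρ' R) (h : V * (Mi * C * (Mi * U)) = 0) :
    (M + e • C + U * X * V).det = (1 + e • (Mi * C)).det * (M + U * X * V).det := by
  set S := Mi * C with hS
  set W := Mi * U * X * V with hW
  have e1 : M + e • C + U * X * V = M * (1 + e • S + W) := by
    rw [Matrix.mul_add, Matrix.mul_add, Matrix.mul_one, hS, hW, Matrix.mul_smul,
      ← Matrix.mul_assoc M Mi C, hM, Matrix.one_mul, ← Matrix.mul_assoc M (Mi * U * X) V,
      ← Matrix.mul_assoc M (Mi * U) X, ← Matrix.mul_assoc M Mi U, hM, Matrix.one_mul]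
  have e2 : M + U * X * V = M * (1 + W) := by
    rw [Matrix.mul_add, Matrix.mul_one, hW, ← Matrix.mul_assoc M (Mi * U * X) V,
      ← Matrix.mul_assoc M (Mi * U) X, ← Matrix.mul_assoc M Mi U, hM, Matrix.one_mul]
  have e3 : (1 + e • S) * (1 - e • S) = 1 := by
    have : (e • S) * (e • S) = 0 := by
      rw [smul_mul_smul_comm, he, zero_smul]
    rw [mul_sub, mul_one, add_mul, one_mul, this]
    abel
  have e4 : 1 + e • S + W = (1 + e • S) * (1 + (1 - e • S) * W) := by
    rw [mul_add, mul_one, ← mul_assoc, e3, one_mul]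
  have e5 : (1 + (1 - e • S) * W).det = (1 + W).det := by
    have f1 : (1 - e • S) * W = ((1 - e • S) * (Mi * U)) * (X * V) := by
      rw [hW]
      simp only [Matrix.mul_assoc]
    have f2 : W = (Mi * U) * (X * V) := by
      rw [hW]
      simp only [Matrix.mul_assoc]
    rw [f1, det_one_add_mul_comm]
    conv_rhs => rw [f2, det_one_add_mul_comm]
    have f3 : X * V * ((1 - e • S) * (Mi * U)) = X * V * (Mi * U) := by
      have f4 : V * (S * (Mi * U)) = 0 := h
      rw [Matrix.sub_mul, Matrix.one_mul, Matrix.mul_sub, Matrix.smul_mul, Matrix.mul_smul,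
        Matrix.mul_assoc X V (S * (Mi * U)), f4, Matrix.mul_zero, smul_zero, sub_zero]
    rw [f3]
  rw [e1, e2, det_mul, det_mul, e4, det_mul, e5]
  ring

end Pool.Agent.Lib.MP_64d474_lc.SubExp
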