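import Pool.Agent.Lib.MP_64d474_lc.SubExp.Extract
import Pool.Agent.Lib.MP_64d474_lc.SubExp.Mult
import Pool.Agent.Lib.MP_64d474_lc.SubExp.Vanish

/-!
# Replacing the variables of one block
-/

set_option autoImplicit false

namespace Pool.Agent.Lib.MP_64d474_lc.SubExp

open MvPolynomial

section

variable {F : Type*} [Field F] {t b : ℕ}

/-- the coordinates of the point as polynomials in the parameters -/
noncomputable def xpt (F : Type*) [Field F] (t : ℕ) {b : ℕ} (a : Fin b) :
    Polynomial (MvPolynomial (Fin t) F) :=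
  ∑ j : Fin t, Polynomial.C (X j) *
    (Polynomial.C ((2 : MvPolynomial (Fin t) F) ^ (a : ℕ)) * Polynomial.X) ^ ((j : ℕ) + 1)

/-- the value of the coordinate with position `a` -/
def xval (z : Fin t → F) (a : ℕ) (y : F) : F := ∑ j : Fin t, z j * ((2 : F) ^ a * y) ^ ((j : ℕ) + 1)

theorem eval₂_xpt [CharZero F] {n : Type*} [Fintype n] [DecidableEq n] (C₀ : Matrix n n F)
    (Cj : Fin t → Matrix n n F) (A : Fin b → Matrix n n F)
    (h : ∀ (z : Fin t → F) (y : F),
      (C₀ + ∑ j, z j • Cj j + ∑ a : Fin b, xval z a y • A a).det = 0) :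
    eval₂ Polynomial.C (xpt F t) (bigMat C₀ Cj A).det = 0 := by
  ext i : 1
  rw [Polynomial.coeff_zero]
  apply MvPolynomial.funext
  intro z
  rw [map_zero]
  have h1 : (eval₂ Polynomial.C (xpt F t) (bigMat C₀ Cj A).det).map (eval z) = 0 := by
    apply Polynomial.funext
    intro y
    rw [Polynomial.eval_zero, Polynomial.eval_map]
    have h2 : Polynomial.eval₂ (eval z) y (eval₂ Polynomial.C (xpt F t) (bigMat C₀ Cj A).det) =
        Polynomial.eval₂RingHom (eval z) y
          (eval₂ Polynomial.C (xpt F t) (bigMat C₀ Cj A).det) := rfl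
    rw [h2, hom_eval₂, eval_bigMat, ← h z y]
    congr 1
    have e1 : ((Polynomial.eval₂RingHom (eval z) y).comp Polynomial.C).comp C =
        RingHom.id F := by
      ext c
      simp
    have e2 : ∀ M : Matrix n n F,
        M.map (((Polynomial.eval₂RingHom (eval z) y).comp Polynomial.C).comp C) = M := by
      intro M
      rw [e1]
      ext i j
      rfl
    simp only [e2]
    congr 1
    · congr 1
      refine Finset.sum_congr rfl fun j _ => ?_
      congr 1
      simp
    · refine Finset.sum_congr rfl fun a _ => ?_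
      congr 1
      rw [xpt, xval, map_sum]
      refine Finset.sum_congr rfl fun j _ => ?_
      rw [map_mul, map_pow, map_mul]
      congr 1
      · simp
      · congr 2
        · rw [Polynomial.coe_eval₂RingHom, Polynomial.eval₂_C, map_pow, map_ofNat]
        · simp
  have h3 := congrArg (fun p => Polynomial.coeff p i) h1
  simpa [Polynomial.coeff_map] using h3

/-- the kernel of the map `θ ↦ V N (∑ θ_j C_j) N U` is large -/
theorem finrank_ker_ge {L : Type*} [Field L] {n ρ ρ' : Type*} [Fintype n] [DecidableEq n]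
    [Fintype ρ] [Fintype ρ'] (Cj : Fin t → Matrix n n L) (N : Matrix n n L)
    (U : Matrix n ρ L) (V : Matrix ρ' n L) (hcard : Fintype.card ρ' * Fintype.card ρ + b ≤ t) :
    ∃ K : Submodule L (Fin t → L), b ≤ Module.finrank L K ∧
      ∀ θ ∈ K, V * (N * (∑ j, θ j • Cj j) * (N * U)) = 0 := by
  classical
  let Λ : (Fin t → L) →ₗ[L] Matrix ρ' ρ L :=
    { toFun := fun θ => V * (N * (∑ j, θ j • Cj j) * (N * U))
      map_add' := fun θ η => by
        simp only [Pi.add_apply, add_smul, Finset.sum_add_distrib, Matrix.mul_add,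
          Matrix.add_mul]
      map_smul' := fun c θ => by
        simp only [Pi.smul_apply, smul_eq_mul, mul_smul, ← Finset.smul_sum, Matrix.mul_smul,
          Matrix.smul_mul, RingHom.id_apply] }
  refine ⟨LinearMap.ker Λ, ?_, fun θ hθ => hθ⟩
  have h1 := LinearMap.finrank_range_add_finrank_ker Λ
  have h2 : Module.finrank L (LinearMap.range Λ) ≤ Module.finrank L (Matrix ρ' ρ L) :=
    Submodule.finrank_le _
  rw [Module.finrank_matrix, Module.finrank_self, mul_one] at h2
  rw [Module.finrank_fin_fun] at h1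
  omega

theorem step_aux [CharZero F] {L T : Type*} [Field L] [CharZero L] [CommRing T]
    (ι : MvPolynomial (Fin t) F →+* L) (hι : Function.Injective ι) (i : Polynomial L →+* T)
    (e : T) (he : e * e = 0) (hinj : ∀ s s', i s + e * i s' = 0 → s' = 0)
    {n ρ ρ' : Type*} [Fintype n] [DecidableEq n] [Fintype ρ]
    [DecidableEq ρ] [Fintype ρ'] [DecidableEq ρ'] (C₀ : Matrix n n F) (Cj : Fin t → Matrix n n F)
    (A : Fin b → Matrix n n F) (U : Matrix n ρ F) (V : Matrix ρ' n F)
    (D : Fin b → Matrix ρ ρ' F) (hA : ∀ a, A a = U * D a * V)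
    (hcard : Fintype.card ρ' * Fintype.card ρ + b ≤ t) (z₀ : Fin t → F) (x₀ : Fin b → F)
    (h : (C₀ + ∑ j, z₀ j • Cj j + ∑ a, x₀ a • A a).det ≠ 0) :
    ∃ (z : Fin t → F) (y : F),
      (C₀ + ∑ j, z j • Cj j + ∑ a : Fin b, xval z a y • A a).det ≠ 0 := by
  by_contra hcon
  push Not at hcon
  have hvan := eval₂_xpt C₀ Cj A hcon
  -- the determinant is not the zero polynomial
  have hne : (bigMat C₀ Cj A).det ≠ 0 := by
    intro h0
    apply h
    have h1 := eval_bigMat (eval z₀) x₀ C₀ Cj A
    rw [h0, eval₂_zero] at h1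
    have e1 : (eval z₀).comp C = RingHom.id F := by
      ext c
      simp
    have e2 : ∀ M : Matrix n n F, M.map ((eval z₀).comp C) = M := by
      intro M
      rw [e1]
      ext i j
      rfl
    simp only [e2, eval_X] at h1
    exact h1.symm
  apply hne
  set μ : F →+* L := ι.comp (C : F →+* MvPolynomial (Fin t) F) with hμ
  set Zl : Fin t → L := fun j => ι (X j) with hZl
  set M1 : Matrix n n L := C₀.map μ + ∑ j, Zl j • (Cj j).map μ +
    ∑ a, μ (x₀ a) • (A a).map μ with hM1
  have hM1det : M1.det ≠ 0 := by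
    intro h0
    have h1 := eval_bigMat ι (fun a => μ (x₀ a)) C₀ Cj A
    have h2 : eval₂ ι (fun a => μ (x₀ a)) (bigMat C₀ Cj A).det =
        ι (eval₂ (RingHom.id _) (fun a => C (x₀ a)) (bigMat C₀ Cj A).det) := by
      rw [hom_eval₂]
      rfl
    have h3 : ι (eval₂ (RingHom.id _) (fun a => C (x₀ a)) (bigMat C₀ Cj A).det) = ι 0 := by
      rw [← h2, h1, map_zero]
      exact h0
    have h3' := hι h3
    apply h
    have h4 := congrArg (eval z₀) h3'
    rw [hom_eval₂, map_zero, eval_bigMat] at h4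
    have e1 : ((eval z₀).comp (RingHom.id (MvPolynomial (Fin t) F))).comp C = RingHom.id F := by
      ext c
      simp
    have e2 : ∀ M : Matrix n n F,
        M.map (((eval z₀).comp (RingHom.id (MvPolynomial (Fin t) F))).comp C) = M := by
      intro M
      rw [e1]
      ext i j
      rfl
    simp only [e2, RingHom.comp_apply, RingHom.id_apply, eval_X, eval_C] at h4
    exact h4
  set Mi : Matrix n n L := M1⁻¹ with hMi
  have hMMi : M1 * Mi = 1 := Matrix.mul_nonsing_inv _ (isUnit_iff_ne_zero.2 hM1det)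
  obtain ⟨K, hK1, hK2⟩ := finrank_ker_ge (b := b) (fun j => (Cj j).map μ) Mi (U.map μ)
    (V.map μ) hcard
  obtain ⟨th, p, hp, hth, hp1, hp2⟩ := exists_echelon K hK1
  have hext := det_extract_ne_zero th p hp hp1 hp2
  set σ : L →+* T := i.comp Polynomial.C with hσ
  set κ : Polynomial (MvPolynomial (Fin t) F) →+* Polynomial L := Polynomial.mapRingHom ι with hκ
  have hκinj : Function.Injective κ := Polynomial.map_injective ι hι
  have hphi0 : phi σ e μ Zl 0 = i.comp (κ.comp Polynomial.C) := by
    rw [phi_zero]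
    apply MvPolynomial.ringHom_ext
    · intro c
      simp [hσ, hκ, hμ]
    · intro j
      simp [hσ, hκ, hZl]
  refine vanish i e he hinj κ hκinj
    (fun θ : K => Polynomial.eval₂RingHom (phi σ e μ Zl θ) (i Polynomial.X)) (xpt F t)
    (fun θ a => ∑ j : Fin t, Polynomial.C ((θ : Fin t → L) j) *
      (Polynomial.C ((2 : L) ^ (a : ℕ)) * Polynomial.X) ^ ((j : ℕ) + 1)) ?_
    (fun l => ⟨th l, hth l⟩) ?_
    (fun θ => unitOf σ e (Mi * ∑ j, (θ : Fin t → L) j • (Cj j).map μ))
    (fun θ => isUnit_unitOf σ e he _) _ _ le_rfl ?_ hvan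
  · intro θ a
    rw [xpt, map_sum, map_sum, map_sum, map_sum, Finset.mul_sum, ← Finset.sum_add_distrib]
    refine Finset.sum_congr rfl fun j _ => ?_
    have f1 : Polynomial.eval₂RingHom (phi σ e μ Zl θ) (i Polynomial.X) (Polynomial.C (X j)) =
        σ (Zl j) + e * σ ((θ : Fin t → L) j) := by
      rw [Polynomial.coe_eval₂RingHom, Polynomial.eval₂_C, phi, coe_eval₂Hom, eval₂_X]
    have f2 : Polynomial.eval₂RingHom (phi σ e μ Zl θ) (i Polynomial.X)
        (Polynomial.C ((2 : MvPolynomial (Fin t) F) ^ (a : ℕ))) =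
        i (Polynomial.C ((2 : L) ^ (a : ℕ))) := by
      rw [Polynomial.coe_eval₂RingHom, Polynomial.eval₂_C, map_pow, map_ofNat, map_pow, map_pow,
        map_ofNat, map_ofNat]
    have f3 : Polynomial.eval₂RingHom (phi σ e μ Zl θ) (i Polynomial.X) Polynomial.X =
        i Polynomial.X := by
      rw [Polynomial.coe_eval₂RingHom, Polynomial.eval₂_X]
    have f4 : κ (Polynomial.C (2 : MvPolynomial (Fin t) F)) = Polynomial.C (2 : L) := by
      rw [hκ, Polynomial.coe_mapRingHom, Polynomial.map_C, map_ofNat]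
    have f5 : κ Polynomial.X = Polynomial.X := by
      rw [hκ, Polynomial.coe_mapRingHom, Polynomial.map_X]
    have f6 : κ (Polynomial.C (X j)) = Polynomial.C (Zl j) := by
      rw [hκ, Polynomial.coe_mapRingHom, Polynomial.map_C]
    simp only [map_mul, map_pow]
    simp only [map_pow] at f2
    rw [f1, f2, f3, f4, f5, f6, hσ, RingHom.comp_apply, RingHom.comp_apply]
    ring
  · intro h0
    apply hext
    rw [← Matrix.det_transpose, ← h0]
    rfl
  · intro θ
    have f1 : (Polynomial.eval₂RingHom (phi σ e μ Zl θ) (i Polynomial.X)).comp Polynomial.C =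
        phi σ e μ Zl θ := by
      apply RingHom.ext
      intro c
      rw [RingHom.comp_apply, Polynomial.coe_eval₂RingHom, Polynomial.eval₂_C]
    rw [f1, ← hphi0]
    exact map_det_eq σ e he μ Zl θ C₀ Cj A U V D hA (fun a => μ (x₀ a)) Mi hMMi (hK2 θ θ.2)

/-- **Step.**  In the nonzero polynomial `det (C₀ + ∑ Z_l C_l + ∑ X_a A_a)`, where the matrices
`A_a` factor through spaces of dimension `ρ` and `ρ'` with `ρ ρ' + b ≤ t`, the variables `X_a` may
be replaced by the values of the extractor at the sources `Z`. -/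
theorem step [CharZero F] {n ρ ρ' : Type*} [Fintype n] [DecidableEq n] [Fintype ρ]
    [DecidableEq ρ] [Fintype ρ'] [DecidableEq ρ'] (C₀ : Matrix n n F) (Cj : Fin t → Matrix n n F)
    (A : Fin b → Matrix n n F) (U : Matrix n ρ F) (V : Matrix ρ' n F)
    (D : Fin b → Matrix ρ ρ' F) (hA : ∀ a, A a = U * D a * V)
    (hcard : Fintype.card ρ' * Fintype.card ρ + b ≤ t) (z₀ : Fin t → F) (x₀ : Fin b → F)
    (h : (C₀ + ∑ j, z₀ j • Cj j + ∑ a, x₀ a • A a).det ≠ 0) :
    ∃ (z : Fin t → F) (y : F),
      (C₀ + ∑ j, z j • Cj j + ∑ a : Fin b, xval z a y • A a).det ≠ 0 := by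
  haveI : CharZero (FractionRing (MvPolynomial (Fin t) F)) := charZero_of_injective_algebraMap
    (IsFractionRing.injective (MvPolynomial (Fin t) F) (FractionRing (MvPolynomial (Fin t) F)))
  refine step_aux (T := TrivSqZeroExt (Polynomial (FractionRing (MvPolynomial (Fin t) F)))
      (Polynomial (FractionRing (MvPolynomial (Fin t) F))))
    (algebraMap (MvPolynomial (Fin t) F) (FractionRing (MvPolynomial (Fin t) F)))
    (IsFractionRing.injective _ _) (TrivSqZeroExt.inlHom _ _) (TrivSqZeroExt.inr 1)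
    (TrivSqZeroExt.inr_mul_inr _ _ _) ?_ C₀ Cj A U V D hA hcard z₀ x₀ h
  intro s s' hs
  have h1 := congrArg TrivSqZeroExt.snd hs
  simpa using h1

end

end Pool.Agent.Lib.MP_64d474_lc.SubExp
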